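import Mathlib

/-!
# Covering a box by bodies that contain all rectangles of given half perimeter

`Cov x s e a b`: rectangles `w i × h i` with `w i + h i ≤ x i`, `s ≤ i < e`, cover `[0,a] × [0,b]`.
-/

set_option autoImplicit false

namespace Pool.Agent.H55.Homo

open Finset

/-- rectangles number `s ≤ i < e` of half perimeter at most `x i` cover the box `[0,a] × [0,b]`;
rectangles with `x i = 0` are not used -/
def Cov (x : ℕ → ℝ) (s e : ℕ) (a b : ℝ) : Prop :=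
  ∃ w h p q : ℕ → ℝ, (∀ i, s ≤ i → i < e → 0 ≤ w i ∧ 0 ≤ h i ∧ w i + h i ≤ x i) ∧
    ∀ u v : ℝ, 0 ≤ u → u ≤ a → 0 ≤ v → v ≤ b → ∃ i, s ≤ i ∧ i < e ∧ 0 < x i ∧
      p i ≤ u ∧ u ≤ p i + w i ∧ q i ≤ v ∧ v ≤ q i + h i

theorem Cov.mono {x : ℕ → ℝ} (hx : ∀ i, 0 ≤ x i) {s e s' e' : ℕ} {a b a' b' : ℝ}
    (h : Cov x s e a b) (hs : s' ≤ s) (he : e ≤ e') (ha : a' ≤ a) (hb : b' ≤ b) :
    Cov x s' e' a' b' := by
  classical
  obtain ⟨w, g, p, q, h1, h2⟩ := h
  refine ⟨fun i => if s ≤ i ∧ i < e then w i else 0, fun i => if s ≤ i ∧ i < e then g i else 0,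
    p, q, ?_, ?_⟩
  · intro i _ _
    by_cases hi : s ≤ i ∧ i < e
    · simp only [hi, and_self, if_true]
      exact h1 i hi.1 hi.2
    · simp only [hi, if_false]
      exact ⟨le_rfl, le_rfl, by simpa using hx i⟩
  · intro u v hu hu' hv hv'
    obtain ⟨i, hi1, hi2, h0, h3⟩ := h2 u v hu (hu'.trans ha) hv (hv'.trans hb)
    refine ⟨i, hs.trans hi1, lt_of_lt_of_le hi2 he, h0, ?_⟩
    have hi : s ≤ i ∧ i < e := ⟨hi1, hi2⟩
    simp only [hi, and_self, if_true]
    exact h3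

theorem Cov.congr {x y : ℕ → ℝ} {s e : ℕ} {a b : ℝ} (h : Cov x s e a b)
    (hxy : ∀ i, s ≤ i → i < e → x i = y i) : Cov y s e a b := by
  obtain ⟨w, g, p, q, h1, h2⟩ := h
  refine ⟨w, g, p, q, fun i hi hi' => ?_, fun u v hu hu' hv hv' => ?_⟩
  · rw [← hxy i hi hi']; exact h1 i hi hi'
  · obtain ⟨i, hi1, hi2, h0, h3⟩ := h2 u v hu hu' hv hv'
    exact ⟨i, hi1, hi2, by rw [← hxy i hi1 hi2]; exact h0, h3⟩

theorem Cov.swap {x : ℕ → ℝ} {s e : ℕ} {a b : ℝ} (h : Cov x s e a b) : Cov x s e b a := by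
  obtain ⟨w, g, p, q, h1, h2⟩ := h
  refine ⟨g, w, q, p, fun i hi hi' => ?_, fun u v hu hu' hv hv' => ?_⟩
  · obtain ⟨a1, a2, a3⟩ := h1 i hi hi'
    exact ⟨a2, a1, by linarith⟩
  · obtain ⟨i, hi1, hi2, h0, h3, h4, h5, h6⟩ := h2 v u hv hv' hu hu'
    exact ⟨i, hi1, hi2, h0, h5, h6, h3, h4⟩

theorem Cov.scale {x : ℕ → ℝ} {s e : ℕ} {a b : ℝ} (h : Cov x s e a b) {c : ℝ} (hc : 0 < c) :
    Cov (fun i => c * x i) s e (c * a) (c * b) := by
  obtain ⟨w, g, p, q, h1, h2⟩ := h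
  refine ⟨fun i => c * w i, fun i => c * g i, fun i => c * p i, fun i => c * q i,
    fun i hi hi' => ?_, fun u v hu hu' hv hv' => ?_⟩
  · obtain ⟨a1, a2, a3⟩ := h1 i hi hi'
    refine ⟨by positivity, by positivity, ?_⟩
    show c * w i + c * g i ≤ c * x i
    nlinarith
  · obtain ⟨i, hi1, hi2, h0, h3, h4, h5, h6⟩ := h2 (u / c) (v / c) (by positivity)
      (by rw [div_le_iff₀ hc]; linarith) (by positivity) (by rw [div_le_iff₀ hc]; linarith)
    rw [le_div_iff₀ hc] at h3 h5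
    rw [div_le_iff₀ hc] at h4 h6
    refine ⟨i, hi1, hi2, by positivity, ?_, ?_, ?_, ?_⟩ <;> show _ ≤ _ <;> simp only <;> linarith

theorem Cov.stack {x : ℕ → ℝ} {s m e : ℕ} {a b c : ℝ} (h : Cov x s m a b) (h' : Cov x m e a c)
    (hs : s ≤ m) (he : m ≤ e) : Cov x s e a (b + c) := by
  classical
  obtain ⟨w, g, p, q, h1, h2⟩ := h
  obtain ⟨w', g', p', q', h1', h2'⟩ := h'
  refine ⟨fun i => if i < m then w i else w' i, fun i => if i < m then g i else g' i,
    fun i => if i < m then p i else p' i, fun i => if i < m then q i else q' i + b,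
    fun i hi hi' => ?_, fun u v hu hu' hv hv' => ?_⟩
  · by_cases him : i < m
    · simp only [him, if_true]
      exact h1 i hi him
    · simp only [him, if_false]
      exact h1' i (not_lt.1 him) hi'
  · by_cases hvb : v ≤ b
    · obtain ⟨i, hi1, hi2, h0, h3⟩ := h2 u v hu hu' hv hvb
      refine ⟨i, hi1, lt_of_lt_of_le hi2 he, h0, ?_⟩
      simp only [hi2, if_true]
      exact h3
    · push Not at hvb
      obtain ⟨i, hi1, hi2, h0, h3, h4, h5, h6⟩ := h2' u (v - b) hu hu' (by linarith) (by linarith)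
      refine ⟨i, hs.trans hi1, hi2, h0, ?_⟩
      have : ¬ i < m := not_lt.2 hi1
      simp only [this, if_false]
      exact ⟨h3, h4, by linarith, by linarith⟩

theorem Cov.side {x : ℕ → ℝ} {s m e : ℕ} {a b c : ℝ} (h : Cov x s m a b) (h' : Cov x m e c b)
    (hs : s ≤ m) (he : m ≤ e) : Cov x s e (a + c) b :=
  (h.swap.stack h'.swap hs he).swap

/-- consecutive intervals cover an interval -/
theorem line_cover {w : ℕ → ℝ} (hw : ∀ i, 0 ≤ w i) (s : ℕ) : ∀ e, s ≤ e → ∀ u, 0 ≤ u →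
    u ≤ ∑ i ∈ Ico s e, w i → 0 < ∑ i ∈ Ico s e, w i →
    ∃ i, s ≤ i ∧ i < e ∧ 0 < w i ∧ ∑ k ∈ Ico s i, w k ≤ u ∧ u ≤ ∑ k ∈ Ico s i, w k + w i := by
  intro e hse
  induction e, hse using Nat.le_induction with
  | base => intro u _ _ h; simp at h
  | succ e he ih =>
    intro u hu hue hpos
    rw [sum_Ico_succ_top he] at hue hpos
    by_cases hwe : w e = 0
    · rw [hwe, add_zero] at hue hpos
      obtain ⟨i, h1, h2, h3⟩ := ih u hu hue hpos
      exact ⟨i, h1, by omega, h3⟩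
    · have hwe' : 0 < w e := lt_of_le_of_ne (hw e) (Ne.symm hwe)
      by_cases hu2 : ∑ k ∈ Ico s e, w k ≤ u
      · exact ⟨e, he, by omega, hwe', hu2, hue⟩
      · push Not at hu2
        obtain ⟨i, h1, h2, h3⟩ := ih u hu hu2.le (lt_of_le_of_lt hu hu2)
        exact ⟨i, h1, by omega, h3⟩

theorem layer_direct {x : ℕ → ℝ} {s e : ℕ} (hse : s ≤ e) {h : ℝ} (hh : 0 ≤ h)
    (hle : ∀ i, s ≤ i → i < e → h ≤ x i) (hsum : ∑ i ∈ Ico s e, (x i - h) = 1) :
    Cov x s e 1 h := by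
  classical
  set w : ℕ → ℝ := fun i => if s ≤ i ∧ i < e then x i - h else 0 with hw
  have hw0 : ∀ i, 0 ≤ w i := by
    intro i
    simp only [hw]
    split_ifs with hi
    · linarith [hle i hi.1 hi.2]
    · exact le_rfl
  have hwe : ∀ i, s ≤ i → i < e → w i = x i - h := by
    intro i h1 h2
    simp only [hw]
    rw [if_pos ⟨h1, h2⟩]
  have hs : ∑ i ∈ Ico s e, w i = 1 := by
    rw [← hsum]
    refine sum_congr rfl fun i hi => ?_
    rw [mem_Ico] at hi
    exact hwe i hi.1 hi.2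
  refine ⟨w, fun _ => h, fun i => ∑ k ∈ Ico s i, w k, fun _ => 0, fun i hi hi' => ?_, ?_⟩
  · refine ⟨hw0 i, hh, ?_⟩
    rw [hwe i hi hi']; linarith
  · intro u v hu hu' hv hv'
    obtain ⟨i, h1, h2, h3, h4, h5⟩ := line_cover hw0 s e hse u hu (by rw [hs]; exact hu')
      (by rw [hs]; norm_num)
    refine ⟨i, h1, h2, ?_, h4, h5, hv, by simpa using hv'⟩
    rw [hwe i h1 h2] at h3
    linarith

/-- One layer of full width one. -/
theorem layer {x : ℕ → ℝ} (hx : ∀ i, 0 ≤ x i) (hanti : Antitone x) (s : ℕ) : ∀ n : ℕ, 1 ≤ n →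
    1 ≤ ∑ i ∈ Ico s (s + n), x i →
    Cov x s (s + n) 1 ((∑ i ∈ Ico s (s + n), x i - 1) / n) := by
  intro n hn
  induction n, hn using Nat.le_induction with
  | base =>
    intro h1
    have e1 : ∑ i ∈ Ico s (s + 1), x i = x s := by simp
    rw [e1] at h1 ⊢
    rw [Nat.cast_one, div_one]
    refine layer_direct (by omega) (by linarith) ?_ (by simp)
    intro i hi hi'
    have : i = s := by omega
    subst this
    linarith
  | succ n hn ih =>
    intro h1
    set A := ∑ i ∈ Ico s (s + (n + 1)), x i with hA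
    have hA' : A = ∑ i ∈ Ico s (s + n), x i + x (s + n) := by
      rw [hA, ← add_assoc, sum_Ico_succ_top (by omega)]
    set h : ℝ := (A - 1) / ((n + 1 : ℕ) : ℝ) with hh
    have hn0 : (0 : ℝ) < ((n + 1 : ℕ) : ℝ) := by positivity
    have hnh : ((n + 1 : ℕ) : ℝ) * h = A - 1 := by rw [hh]; field_simp
    have hh0 : 0 ≤ h := div_nonneg (by linarith) hn0.le
    by_cases hle : h ≤ x (s + n)
    · refine layer_direct (by omega) hh0 ?_ ?_
      · intro i hi hi'
        exact hle.trans (hanti (by omega))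
      · rw [sum_sub_distrib, ← hA, sum_const, Nat.card_Ico, nsmul_eq_mul,
          show s + (n + 1) - s = n + 1 by omega, hnh]
        ring
    · push Not at hle
      have hn1 : (1 : ℝ) ≤ (n : ℝ) := by exact_mod_cast hn
      set A' := ∑ i ∈ Ico s (s + n), x i with hAA
      have h2 : (n : ℝ) * h ≤ A' - 1 := by
        push_cast at hnh
        linarith
      have h3 : 1 ≤ A' := by nlinarith
      have h4 := ih h3
      refine h4.mono hx le_rfl (by omega) le_rfl ?_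
      rw [le_div_iff₀ (by linarith)]
      linarith

end Pool.Agent.H55.Homo
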