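import Pool.Agent.H55.Cov.Square

/-!
# Planar convex bodies
-/

set_option autoImplicit false

namespace Pool.Agent.H55.Homo

open Finset

/-- the plane -/
abbrev E2 : Type := EuclideanSpace ℝ (Fin 2)

/-- determinant -/
def dt (u v : E2) : ℝ := u 0 * v 1 - u 1 * v 0

theorem dt_cont {X : Type*} [TopologicalSpace X] {f g : X → E2} (hf : Continuous f)
    (hg : Continuous g) : Continuous fun x => dt (f x) (g x) := by
  unfold dt
  fun_prop

/-- A frame adapted to the convex body. -/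
structure Frame (K : Set E2) where
  a : E2
  b : E2
  c : E2
  d : E2
  ha : a ∈ K
  hb : b ∈ K
  hc : c ∈ K
  hd : d ∈ K
  pos : 0 < dt (c - a) (d - b)
  l1 : ∀ p ∈ K, 0 ≤ dt (p - a) (d - b)
  u1 : ∀ p ∈ K, dt (p - a) (d - b) ≤ dt (c - a) (d - b)
  l2 : ∀ p ∈ K, 0 ≤ dt (c - a) (p - b)
  u2 : ∀ p ∈ K, dt (c - a) (p - b) ≤ dt (c - a) (d - b)

theorem exists_frame (K : Set E2) (hc : IsCompact K) (hi : (interior K).Nonempty) :
    Nonempty (Frame K) := by
  obtain ⟨p, hp⟩ := hi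
  obtain ⟨ε, hε, hball⟩ := Metric.isOpen_iff.1 isOpen_interior p hp
  have hsub : Metric.ball p ε ⊆ K := hball.trans interior_subset
  have hpK : p ∈ K := interior_subset hp
  have hK4 : IsCompact (K ×ˢ (K ×ˢ (K ×ˢ K))) := hc.prod (hc.prod (hc.prod hc))
  obtain ⟨⟨a, b, c, d⟩, ⟨ha, hb, hcc, hd⟩, hmax⟩ := hK4.exists_isMaxOn
    ⟨(p, p, p, p), hpK, hpK, hpK, hpK⟩
    (f := fun q : E2 × E2 × E2 × E2 => dt (q.2.2.1 - q.1) (q.2.2.2 - q.2.1))
    (dt_cont (by fun_prop) (by fun_prop)).continuousOn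
  have hM : ∀ a' ∈ K, ∀ b' ∈ K, ∀ c' ∈ K, ∀ d' ∈ K,
      dt (c' - a') (d' - b') ≤ dt (c - a) (d - b) := by
    intro a' ha' b' hb' c' hc' d' hd'
    exact hmax (show (a', b', c', d') ∈ K ×ˢ (K ×ˢ (K ×ˢ K)) from ⟨ha', hb', hc', hd'⟩)
  have hpos : 0 < dt (c - a) (d - b) := by
    set e0 : E2 := EuclideanSpace.single 0 (ε / 2) with he0
    set e1 : E2 := EuclideanSpace.single 1 (ε / 2) with he1
    have h0 : p + e0 ∈ K := hsub (by
      rw [Metric.mem_ball, dist_eq_norm, add_sub_cancel_left, he0, EuclideanSpace.norm_single,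
        Real.norm_of_nonneg (by positivity)]
      linarith)
    have h1 : p + e1 ∈ K := hsub (by
      rw [Metric.mem_ball, dist_eq_norm, add_sub_cancel_left, he1, EuclideanSpace.norm_single,
        Real.norm_of_nonneg (by positivity)]
      linarith)
    refine lt_of_lt_of_le ?_ (hM p hpK p hpK _ h0 _ h1)
    rw [add_sub_cancel_left, add_sub_cancel_left, dt, he0, he1]
    simp
    positivity
  refine ⟨⟨a, b, c, d, ha, hb, hcc, hd, hpos, ?_, ?_, ?_, ?_⟩⟩
  · intro q hq
    have h := hM q hq b hb c hcc d hd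
    have e : dt (c - q) (d - b) = dt (c - a) (d - b) - dt (q - a) (d - b) := by
      simp only [dt, PiLp.sub_apply]; ring
    linarith
  · intro q hq
    exact hM a ha b hb q hq d hd
  · intro q hq
    have h := hM a ha q hq c hcc d hd
    have e : dt (c - a) (d - q) = dt (c - a) (d - b) - dt (c - a) (q - b) := by
      simp only [dt, PiLp.sub_apply]; ring
    linarith
  · intro q hq
    exact hM a ha b hb c hcc q hq

variable {K : Set E2}

/-- first coordinate -/
noncomputable def Frame.al (F : Frame K) (p : E2) : ℝ :=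
  dt (p - F.a) (F.d - F.b) / dt (F.c - F.a) (F.d - F.b)

/-- second coordinate -/
noncomputable def Frame.be (F : Frame K) (p : E2) : ℝ :=
  dt (F.c - F.a) (p - F.b) / dt (F.c - F.a) (F.d - F.b)

theorem Frame.expand (F : Frame K) (p : E2) :
    p = F.a + F.al p • (F.c - F.a) + (F.be p - F.be F.a) • (F.d - F.b) := by
  have hD := F.pos.ne'
  have key : ∀ i : Fin 2, p i = F.a i + F.al p * (F.c i - F.a i) +
      (F.be p - F.be F.a) * (F.d i - F.b i) := by
    intro i
    unfold Frame.al Frame.be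
    rw [← sub_div]
    field_simp
    fin_cases i
    · simp only [dt, PiLp.sub_apply, Fin.zero_eta, Fin.isValue]; ring
    · simp only [dt, PiLp.sub_apply, Fin.mk_one, Fin.isValue]; ring
  ext i
  simp only [PiLp.add_apply, PiLp.smul_apply, PiLp.sub_apply, smul_eq_mul]
  exact key i

theorem Frame.al_mem (F : Frame K) {p : E2} (hp : p ∈ K) : 0 ≤ F.al p ∧ F.al p ≤ 1 := by
  unfold Frame.al
  exact ⟨div_nonneg (F.l1 p hp) F.pos.le, (div_le_one F.pos).2 (F.u1 p hp)⟩

theorem Frame.be_mem (F : Frame K) {p : E2} (hp : p ∈ K) : 0 ≤ F.be p ∧ F.be p ≤ 1 := by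
  unfold Frame.be
  exact ⟨div_nonneg (F.l2 p hp) F.pos.le, (div_le_one F.pos).2 (F.u2 p hp)⟩

/-- A homothetic copy of ratio `lam` covers every box `w × h` with `w + h ≤ lam`. -/
theorem Frame.cover_box (F : Frame K) (hK : Convex ℝ K) {w h lam : ℝ} (hw : 0 ≤ w) (hh : 0 ≤ h)
    (hl : 0 < lam) (hwh : w + h ≤ lam) (px py : ℝ) :
    ∃ t : E2, ∀ p : E2, px ≤ F.al p → F.al p ≤ px + w → py ≤ F.be p → F.be p ≤ py + h →
      p ∈ (fun x => lam • x + t) '' K := by
  obtain ⟨W, hW, hWw⟩ : ∃ W, W + h = lam ∧ w ≤ W := ⟨lam - h, by ring, by linarith⟩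
  have hW0 : 0 ≤ W := hw.trans hWw
  refine ⟨F.a + px • (F.c - F.a) + (py - F.be F.a) • (F.d - F.b) - W • F.a - h • F.b, ?_⟩
  intro p h1 h2 h3 h4
  obtain ⟨s, hs0, hs1, hs⟩ : ∃ s, 0 ≤ s ∧ s ≤ 1 ∧ W * s = F.al p - px := by
    rcases hW0.eq_or_lt with h0 | h0
    · exact ⟨0, le_rfl, zero_le_one, by rw [mul_zero]; linarith⟩
    · refine ⟨(F.al p - px) / W, div_nonneg (by linarith) hW0, ?_, by field_simp⟩
      rw [div_le_one h0]; linarith
  obtain ⟨r, hr0, hr1, hr⟩ : ∃ r, 0 ≤ r ∧ r ≤ 1 ∧ h * r = F.be p - py := by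
    rcases hh.eq_or_lt with h0 | h0
    · exact ⟨0, le_rfl, zero_le_one, by rw [mul_zero]; linarith⟩
    · refine ⟨(F.be p - py) / h, div_nonneg (by linarith) hh, ?_, by field_simp⟩
      rw [div_le_one h0]; linarith
  have hA : F.a + s • (F.c - F.a) ∈ K := by
    have := hK F.ha F.hc (sub_nonneg.2 hs1) hs0 (by ring)
    have e : F.a + s • (F.c - F.a) = (1 - s) • F.a + s • F.c := by module
    rw [e]; exact this
  have hB : F.b + r • (F.d - F.b) ∈ K := by
    have := hK F.hb F.hd (sub_nonneg.2 hr1) hr0 (by ring)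
    have e : F.b + r • (F.d - F.b) = (1 - r) • F.b + r • F.d := by module
    rw [e]; exact this
  refine ⟨(W / lam) • (F.a + s • (F.c - F.a)) + (h / lam) • (F.b + r • (F.d - F.b)),
    hK hA hB (by positivity) (by positivity) (by rw [← add_div, hW, div_self hl.ne']), ?_⟩
  simp only
  rw [smul_add, smul_smul, smul_smul, mul_div_cancel₀ _ hl.ne', mul_div_cancel₀ _ hl.ne']
  conv_rhs => rw [F.expand p]
  have e1 : F.al p = px + W * s := by linarith
  have e2 : F.be p = py + h * r := by linarith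
  rw [e1, e2]
  module

/-- Copies of a planar convex body of ratios `r i` with `∑ r i ^ 2 ≥ 4.85` cover it. -/
theorem cover_body (K : Set E2) (hK : Convex ℝ K) (hc : IsCompact K) (hi : (interior K).Nonempty)
    (m : ℕ) (r : Fin m → ℝ) (hr : ∀ i, 0 < r i) (hsum : 97 / 20 ≤ ∑ i, r i ^ 2) :
    ∃ t : Fin m → E2, K ⊆ ⋃ i, (fun x => r i • x + t i) '' K := by
  classical
  by_cases hbig : ∃ i, 1 ≤ r i
  · obtain ⟨i, hi1⟩ := hbig
    obtain ⟨p, hp⟩ := hi
    have hpK : p ∈ K := interior_subset hp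
    refine ⟨fun _ => (1 - r i) • p, fun x hx => Set.mem_iUnion.2 ⟨i, ?_⟩⟩
    have hri := hr i
    refine ⟨(r i)⁻¹ • x + (1 - (r i)⁻¹) • p, hK hx hpK (by positivity)
      (sub_nonneg.2 (inv_le_one_of_one_le₀ hi1)) (by ring), ?_⟩
    simp only
    rw [smul_add, smul_smul, smul_smul, mul_inv_cancel₀ hri.ne', mul_sub, mul_one,
      mul_inv_cancel₀ hri.ne']
    module
  push Not at hbig
  obtain ⟨F⟩ := exists_frame K hc hi
  set σ := Tuple.sort (fun i => - r i) with hσ
  have hmono : Monotone ((fun i => - r i) ∘ σ) := Tuple.monotone_sort _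
  set x : ℕ → ℝ := fun i => if h : i < m then r (σ ⟨i, h⟩) else 0 with hx
  have hx0 : ∀ i, 0 ≤ x i := by
    intro i
    simp only [hx]
    split_ifs with h
    · exact (hr _).le
    · exact le_rfl
  have hxanti : Antitone x := by
    intro i j hij
    by_cases hj : j < m
    · have hi' : i < m := lt_of_le_of_lt hij hj
      simp only [hx]
      rw [dif_pos hj, dif_pos hi']
      have := hmono (show (⟨i, hi'⟩ : Fin m) ≤ ⟨j, hj⟩ from hij)
      simp only [Function.comp] at this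
      linarith
    · have : x j = 0 := by simp only [hx]; rw [dif_neg hj]
      rw [this]
      exact hx0 i
  have hx1 : x 0 ≤ 1 := by
    simp only [hx]
    split_ifs with h
    · exact (hbig _).le
    · exact zero_le_one
  have hxN : ∀ i, max m 10 ≤ i → x i = 0 := by
    intro i hi'
    simp only [hx]
    rw [dif_neg (by omega)]
  have hxsum : ∑ i ∈ range (max m 10), x i ^ 2 = ∑ i, r i ^ 2 := by
    have h1 : ∑ i ∈ range m, x i ^ 2 = ∑ i ∈ range (max m 10), x i ^ 2 := by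
      refine sum_subset (range_subset_range.2 (le_max_left _ _)) fun i _ hi' => ?_
      rw [mem_range] at hi'
      simp only [hx]
      rw [dif_neg hi']
      norm_num
    have h3 : ∑ i : Fin m, x i ^ 2 = ∑ i : Fin m, r (σ i) ^ 2 := by
      refine sum_congr rfl fun i _ => ?_
      simp only [hx]
      rw [dif_pos i.2]
    rw [← h1, ← Fin.sum_univ_eq_sum_range (fun i => x i ^ 2) m, h3]
    exact Equiv.sum_comp σ (fun i => r i ^ 2)
  obtain ⟨w, h, p, q, h1, h2⟩ := square hx0 hxanti (max m 10) (le_max_right _ _) hxN hx1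
    (by rw [hxsum]; exact hsum)
  have hT : ∀ i : Fin m, ∃ t : E2, ∀ y : E2, p (σ.symm i) ≤ F.al y →
      F.al y ≤ p (σ.symm i) + w (σ.symm i) → q (σ.symm i) ≤ F.be y →
      F.be y ≤ q (σ.symm i) + h (σ.symm i) → y ∈ (fun x => r i • x + t) '' K := by
    intro i
    obtain ⟨a1, a2, a3⟩ := h1 (σ.symm i) (Nat.zero_le _)
      (lt_of_lt_of_le (σ.symm i).2 (le_max_left _ _))
    have hxi : x (σ.symm i) = r i := by
      simp only [hx]
      rw [dif_pos (σ.symm i).2]
      simp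
    rw [hxi] at a3
    exact F.cover_box hK a1 a2 (hr i) a3 _ _
  choose t ht using hT
  refine ⟨t, fun y hy => ?_⟩
  obtain ⟨b1, b2⟩ := F.al_mem hy
  obtain ⟨b3, b4⟩ := F.be_mem hy
  obtain ⟨i, -, -, hpos, c1, c2, c3, c4⟩ := h2 _ _ b1 b2 b3 b4
  have him : i < m := by
    by_contra hlt
    simp only [hx] at hpos
    rw [dif_neg hlt] at hpos
    exact lt_irrefl _ hpos
  have e : ((σ.symm (σ ⟨i, him⟩) : Fin m) : ℕ) = i := by simp
  refine Set.mem_iUnion.2 ⟨σ ⟨i, him⟩, ht _ y ?_ ?_ ?_ ?_⟩ <;> rw [e]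
  · exact c1
  · exact c2
  · exact c3
  · exact c4

end Pool.Agent.H55.Homo
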