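import Pool.Agent.H55.Cov.Basic

/-!
# The strip lemma: `25/6 · b + 13/12 · x_s ≤ ∑ x_i²` suffices for the strip `[0,1] × [0,b]`
-/

set_option autoImplicit false

namespace Pool.Agent.H55.Homo

open Finset

theorem ineq1 {a e s M : ℝ} (ha : 0 < a) (ha1 : a ≤ 1) (he : a ≤ 13 * e) (hea : e ≤ a)
    (hs1 : 5 / 3 ≤ s) (hs2 : s ≤ 5 / 2) (hse : s ≤ 5 / 3 + e) (hM : 0 < M) :
    (a + e) * s - M * a * e - 13 / 12 * (a - e) ≤ 25 / 6 * ((s - 1) / M) := by
  have he0 : 0 < e := by linarith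
  obtain ⟨α, hα, rfl⟩ : ∃ α : ℝ, 0 < α ∧ a = α ^ 2 :=
    ⟨Real.sqrt a, Real.sqrt_pos.2 ha, (Real.sq_sqrt ha.le).symm⟩
  obtain ⟨ε, hε, rfl⟩ : ∃ ε : ℝ, 0 < ε ∧ e = ε ^ 2 :=
    ⟨Real.sqrt e, Real.sqrt_pos.2 he0, (Real.sq_sqrt he0.le).symm⟩
  have hεα : ε ≤ α := by nlinarith
  have hα1 : α ≤ 1 := by nlinarith
  have hαε : α ≤ 3.61 * ε := by nlinarith
  -- `s (α - ε) ≤ 13/12 (α + ε)`
  have h1 : s * (α - ε) ≤ 13 / 12 * (α + ε) := by
    have h2 : s * (α - ε) ≤ (5 / 3 + ε ^ 2) * (α - ε) :=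
      mul_le_mul_of_nonneg_right hse (by linarith)
    have h3 : ε * (α - ε) ≤ 1 / 4 := by nlinarith [sq_nonneg (α - 2 * ε)]
    have h4 : ε ^ 2 * (α - ε) ≤ 1 / 4 * ε := by nlinarith
    nlinarith
  have h2 : (α ^ 2 + ε ^ 2) * s - 13 / 12 * (α ^ 2 - ε ^ 2) ≤ 2 * s * (α * ε) := by
    have h3 : s * (α - ε) * (α - ε) ≤ 13 / 12 * (α + ε) * (α - ε) :=
      mul_le_mul_of_nonneg_right h1 (by linarith)
    nlinarith
  have h3 : 2 * s * (α * ε) - M * α ^ 2 * ε ^ 2 ≤ s ^ 2 / M := by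
    rw [le_div_iff₀ hM]
    nlinarith [sq_nonneg (s - M * (α * ε))]
  have h4 : s ^ 2 / M ≤ 25 / 6 * ((s - 1) / M) := by
    rw [← mul_div_assoc]
    apply div_le_div_of_nonneg_right _ hM.le
    nlinarith
  linarith

theorem ineq2 {s z : ℝ} (hs1 : 1 < s) (hs2 : s < 5 / 3) (hz : s ≤ z) :
    z * ((s - 1) + (s - z) / 13) ≤ 25 / 6 * (s - 1) := by
  obtain ⟨p, rfl⟩ : ∃ p, s = 1 + p := ⟨s - 1, by ring⟩
  obtain ⟨δ, rfl⟩ : ∃ δ, z = 1 + p + δ := ⟨z - (1 + p), by ring⟩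
  have hp : 0 < p := by linarith
  have hp2 : p < 2 / 3 := by linarith
  have hδ : 0 ≤ δ := by linarith
  have key : 0 ≤ δ ^ 2 - (12 * p - 1) * δ + 13 * p * (19 / 6 - p) := by
    by_cases hp3 : p ≤ 1 / 12
    · nlinarith [mul_nonneg hδ (by linarith : (0 : ℝ) ≤ 1 - 12 * p)]
    · push Not at hp3
      nlinarith [sq_nonneg (δ - (12 * p - 1) / 2)]
  nlinarith

variable {y : ℕ → ℝ}

theorem sum_sq_le (hanti : Antitone y) (m : ℕ) (hm : 1 ≤ m) :
    ∑ i ∈ range m, y i ^ 2 ≤ (y 0 + y (m - 1)) * ∑ i ∈ range m, y i - m * y 0 * y (m - 1) := by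
  have h : ∀ i ∈ range m, y i ^ 2 ≤ (y 0 + y (m - 1)) * y i - y 0 * y (m - 1) := by
    intro i hi
    rw [mem_range] at hi
    have h1 : y i ≤ y 0 := hanti (Nat.zero_le _)
    have h2 : y (m - 1) ≤ y i := hanti (by omega)
    nlinarith [mul_nonneg (sub_nonneg.2 h1) (sub_nonneg.2 h2)]
  calc ∑ i ∈ range m, y i ^ 2 ≤ ∑ i ∈ range m, ((y 0 + y (m - 1)) * y i - y 0 * y (m - 1)) :=
        sum_le_sum h
    _ = _ := by
      rw [sum_sub_distrib, ← mul_sum, sum_const, card_range, nsmul_eq_mul]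
      ring

theorem core (hanti : Antitone y) (hy : ∀ i, 0 ≤ y i) (h1 : y 0 ≤ 1) (h0 : 0 < y 0) (n : ℕ)
    (hn : ∀ i, n ≤ i → y i = 0) :
    ∃ m, 1 ≤ m ∧ m ≤ n ∧ ∑ i ∈ range m, y i ^ 2 - 13 / 12 * (y 0 - y m) ≤
      25 / 6 * max 0 ((∑ i ∈ range m, y i - 1) / m) := by
  classical
  have hex : ∃ j, y j < y 0 / 13 := ⟨n, by rw [hn n le_rfl]; positivity⟩
  set j := Nat.find hex with hj
  have hj1 : y j < y 0 / 13 := Nat.find_spec hex
  have hj2 : ∀ i, i < j → y 0 / 13 ≤ y i := fun i hi => not_lt.1 (Nat.find_min hex hi)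
  have hjpos : 1 ≤ j := by
    rcases Nat.eq_zero_or_pos j with h | h
    · rw [h] at hj1; linarith
    · exact h
  have hjn : j ≤ n := Nat.find_min' hex (by rw [hn n le_rfl]; positivity)
  set A : ℕ → ℝ := fun m => ∑ i ∈ range m, y i with hA
  have hAs : ∀ m, A (m + 1) = A m + y m := fun m => by simp only [hA]; rw [sum_range_succ]
  by_cases hex2 : ∃ m, m ≤ j ∧ 5 / 3 ≤ A m
  · set m := Nat.find hex2 with hm
    obtain ⟨hmj, hmA⟩ : m ≤ j ∧ 5 / 3 ≤ A m := Nat.find_spec hex2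
    have hmin : ∀ i, i < m → A i < 5 / 3 := by
      intro i hi
      have := Nat.find_min hex2 hi
      push Not at this
      exact this (by omega)
    have hm2 : 2 ≤ m := by
      by_contra hlt
      push Not at hlt
      interval_cases m
      · simp [hA] at hmA; linarith
      · simp [hA] at hmA; linarith
    clear_value m
    obtain ⟨r, rfl⟩ : ∃ r, m = r + 1 := ⟨m - 1, by omega⟩
    have hAr : A r < 5 / 3 := hmin r (by omega)
    have hyr : y 0 / 13 ≤ y r := hj2 r (by omega)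
    have hyr0 : y r ≤ y 0 := hanti (Nat.zero_le _)
    have hA1 := hAs r
    have hs2 : A (r + 1) ≤ 5 / 2 := by
      rcases Nat.lt_or_ge r 2 with hr | hr
      · have : r = 1 := by omega
        subst this
        have e1 : A 1 = y 0 := by simp [hA]
        rw [hA1, e1]
        linarith
      · have h3 : (r : ℝ) * y r ≤ A r := by
          have : ∑ i ∈ range r, y r ≤ ∑ i ∈ range r, y i :=
            sum_le_sum fun i hi => hanti (by rw [mem_range] at hi; omega)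
          rw [sum_const, card_range, nsmul_eq_mul] at this
          exact this
        have h4 : (2 : ℝ) ≤ r := by exact_mod_cast hr
        have h5 : y r ≤ 5 / 6 := by nlinarith [hy r]
        linarith
    have hM : (0 : ℝ) < ((r + 1 : ℕ) : ℝ) := by positivity
    refine ⟨r + 1, by omega, by omega, ?_⟩
    have k1 := sum_sq_le hanti (r + 1) (by omega)
    rw [Nat.add_sub_cancel] at k1
    have k2 := ineq1 h0 h1 (by linarith : y 0 ≤ 13 * y r) hyr0 hmA hs2 (by linarith) hM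
    have k3 : y (r + 1) ≤ y r := hanti (by omega)
    have k4 : (A (r + 1) - 1) / ((r + 1 : ℕ) : ℝ) ≤ max 0 ((A (r + 1) - 1) / ((r + 1 : ℕ) : ℝ)) :=
      le_max_right _ _
    change ∑ i ∈ range (r + 1), y i ^ 2 - 13 / 12 * (y 0 - y (r + 1)) ≤
      25 / 6 * max 0 ((A (r + 1) - 1) / ((r + 1 : ℕ) : ℝ))
    change ∑ i ∈ range (r + 1), y i ^ 2 ≤ (y 0 + y r) * A (r + 1) - ((r + 1 : ℕ) : ℝ) * y 0 * y r
      at k1
    linarith
  · push Not at hex2
    have hAj : A j < 5 / 3 := hex2 j le_rfl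
    have hjM : (0 : ℝ) < (j : ℝ) := by exact_mod_cast hjpos
    refine ⟨j, hjpos, hjn, ?_⟩
    change ∑ i ∈ range j, y i ^ 2 - 13 / 12 * (y 0 - y j) ≤ 25 / 6 * max 0 ((A j - 1) / (j : ℝ))
    by_cases hA1 : A j ≤ 1
    · have k1 : ∑ i ∈ range j, y i ^ 2 ≤ y 0 * A j := by
        simp only [hA, mul_sum]
        refine sum_le_sum fun i _ => ?_
        have : y i ≤ y 0 := hanti (Nat.zero_le _)
        nlinarith [hy i]
      have k2 : (0 : ℝ) ≤ max 0 ((A j - 1) / (j : ℝ)) := le_max_left _ _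
      have k3 : y 0 * A j ≤ y 0 := by nlinarith
      linarith
    · push Not at hA1
      have k1 := sum_sq_le hanti j hjpos
      change ∑ i ∈ range j, y i ^ 2 ≤ (y 0 + y (j - 1)) * A j - (j : ℝ) * y 0 * y (j - 1) at k1
      have k2 : y 0 / 13 ≤ y (j - 1) := hj2 _ (by omega)
      have k3 : A j ≤ j * y 0 := by
        have : ∑ i ∈ range j, y i ≤ ∑ i ∈ range j, y 0 :=
          sum_le_sum fun i _ => hanti (Nat.zero_le _)
        rw [sum_const, card_range, nsmul_eq_mul] at this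
        exact this
      have k4 := ineq2 hA1 hAj k3
      have k5 : y 0 * ((A j - 1) + (A j - j * y 0) / 13) ≤ 25 / 6 * ((A j - 1) / (j : ℝ)) := by
        rw [← mul_div_assoc, le_div_iff₀ hjM]
        calc y 0 * ((A j - 1) + (A j - j * y 0) / 13) * j
            = j * y 0 * ((A j - 1) + (A j - j * y 0) / 13) := by ring
          _ ≤ _ := k4
      have k6 : (A j - 1) / (j : ℝ) ≤ max 0 ((A j - 1) / (j : ℝ)) := le_max_right _ _
      have k7 : y (j - 1) * (A j - j * y 0) ≤ y 0 / 13 * (A j - j * y 0) := by nlinarith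
      nlinarith

end Pool.Agent.H55.Homo
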