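import Mathlib

/-!
# The case analysis (generated; every leaf is a linear certificate)
-/

set_option autoImplicit false

namespace Pool.Agent.H55.Homo

theorem sec {a l u : ℝ} (h1 : l ≤ a) (h2 : a ≤ u) : a ^ 2 ≤ (l + u) * a - l * u := by
  nlinarith [mul_nonneg (sub_nonneg.2 h1) (sub_nonneg.2 h2)]

set_option linter.unusedVariables false in
theorem tree (a0 a1 a2 a3 a4 a5 a6 a7 a8 a9 : ℝ)
    (o0 : a0 ≤ 1)
    (o1 : a1 ≤ a0)
    (o2 : a2 ≤ a1)
    (o3 : a3 ≤ a2)
    (o4 : a4 ≤ a3)
    (o5 : a5 ≤ a4)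
    (o6 : a6 ≤ a5)
    (o7 : a7 ≤ a6)
    (o8 : a8 ≤ a7)
    (o9 : a9 ≤ a8)
    (o10 : 0 ≤ a9)
    (b0 : 41 / 65 ≤ a0) (b1 : 23 / 50 * a0 ≤ a1)
    (s2 : 97 / 20 - (a0 ^ 2 + a1 ^ 2) < 25 / 6 * (1 - (a0 + a1 - 1) / 2) + 13 / 12 * a2)
    (s222 : 97 / 20 - (a0 ^ 2 + a1 ^ 2 + a2 ^ 2 + a3 ^ 2 + a4 ^ 2 + a5 ^ 2) < 25 / 6 * (1 - (a0 + a1 - 1) / 2 - (a2 + a3 - 1) / 2 - (a4 + a5 - 1) / 2) + 13 / 12 * a6)
    (p2222 : 0 < 1 - (a0 + a1 - 1) / 2 - (a2 + a3 - 1) / 2 - (a4 + a5 - 1) / 2 - (a6 + a7 - 1) / 2)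
    (p2223 : 0 < 1 - (a0 + a1 - 1) / 2 - (a2 + a3 - 1) / 2 - (a4 + a5 - 1) / 2 - (a6 + a7 + a8 - 1) / 3)
    (s223 : 97 / 20 - (a0 ^ 2 + a1 ^ 2 + a2 ^ 2 + a3 ^ 2 + a4 ^ 2 + a5 ^ 2 + a6 ^ 2) < 25 / 6 * (1 - (a0 + a1 - 1) / 2 - (a2 + a3 - 1) / 2 - (a4 + a5 + a6 - 1) / 3) + 13 / 12 * a7)
    (s224 : 97 / 20 - (a0 ^ 2 + a1 ^ 2 + a2 ^ 2 + a3 ^ 2 + a4 ^ 2 + a5 ^ 2 + a6 ^ 2 + a7 ^ 2) < 25 / 6 * (1 - (a0 + a1 - 1) / 2 - (a2 + a3 - 1) / 2 - (a4 + a5 + a6 + a7 - 1) / 4) + 13 / 12 * a8)
    (s23 : 97 / 20 - (a0 ^ 2 + a1 ^ 2 + a2 ^ 2 + a3 ^ 2 + a4 ^ 2) < 25 / 6 * (1 - (a0 + a1 - 1) / 2 - (a2 + a3 + a4 - 1) / 3) + 13 / 12 * a5)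
    (s233 : 97 / 20 - (a0 ^ 2 + a1 ^ 2 + a2 ^ 2 + a3 ^ 2 + a4 ^ 2 + a5 ^ 2 + a6 ^ 2 + a7 ^ 2) < 25 / 6 * (1 - (a0 + a1 - 1) / 2 - (a2 + a3 + a4 - 1) / 3 - (a5 + a6 + a7 - 1) / 3) + 13 / 12 * a8)
    (s234 : 97 / 20 - (a0 ^ 2 + a1 ^ 2 + a2 ^ 2 + a3 ^ 2 + a4 ^ 2 + a5 ^ 2 + a6 ^ 2 + a7 ^ 2 + a8 ^ 2) < 25 / 6 * (1 - (a0 + a1 - 1) / 2 - (a2 + a3 + a4 - 1) / 3 - (a5 + a6 + a7 + a8 - 1) / 4) + 13 / 12 * a9)
    (p234 : 0 < 1 - (a0 + a1 - 1) / 2 - (a2 + a3 + a4 - 1) / 3 - (a5 + a6 + a7 + a8 - 1) / 4)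
    (s24 : 97 / 20 - (a0 ^ 2 + a1 ^ 2 + a2 ^ 2 + a3 ^ 2 + a4 ^ 2 + a5 ^ 2) < 25 / 6 * (1 - (a0 + a1 - 1) / 2 - (a2 + a3 + a4 + a5 - 1) / 4) + 13 / 12 * a6)
    (s25 : 97 / 20 - (a0 ^ 2 + a1 ^ 2 + a2 ^ 2 + a3 ^ 2 + a4 ^ 2 + a5 ^ 2 + a6 ^ 2) < 25 / 6 * (1 - (a0 + a1 - 1) / 2 - (a2 + a3 + a4 + a5 + a6 - 1) / 5) + 13 / 12 * a7)
    (s3 : 97 / 20 - (a0 ^ 2 + a1 ^ 2 + a2 ^ 2) < 25 / 6 * (1 - (a0 + a1 + a2 - 1) / 3) + 13 / 12 * a3)
    (s33 : 97 / 20 - (a0 ^ 2 + a1 ^ 2 + a2 ^ 2 + a3 ^ 2 + a4 ^ 2 + a5 ^ 2) < 25 / 6 * (1 - (a0 + a1 + a2 - 1) / 3 - (a3 + a4 + a5 - 1) / 3) + 13 / 12 * a6)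
    (s333 : 97 / 20 - (a0 ^ 2 + a1 ^ 2 + a2 ^ 2 + a3 ^ 2 + a4 ^ 2 + a5 ^ 2 + a6 ^ 2 + a7 ^ 2 + a8 ^ 2) < 25 / 6 * (1 - (a0 + a1 + a2 - 1) / 3 - (a3 + a4 + a5 - 1) / 3 - (a6 + a7 + a8 - 1) / 3) + 13 / 12 * a9)
    (p333 : 0 < 1 - (a0 + a1 + a2 - 1) / 3 - (a3 + a4 + a5 - 1) / 3 - (a6 + a7 + a8 - 1) / 3)
    (s34 : 97 / 20 - (a0 ^ 2 + a1 ^ 2 + a2 ^ 2 + a3 ^ 2 + a4 ^ 2 + a5 ^ 2 + a6 ^ 2) < 25 / 6 * (1 - (a0 + a1 + a2 - 1) / 3 - (a3 + a4 + a5 + a6 - 1) / 4) + 13 / 12 * a7)
    (s35 : 97 / 20 - (a0 ^ 2 + a1 ^ 2 + a2 ^ 2 + a3 ^ 2 + a4 ^ 2 + a5 ^ 2 + a6 ^ 2 + a7 ^ 2) < 25 / 6 * (1 - (a0 + a1 + a2 - 1) / 3 - (a3 + a4 + a5 + a6 + a7 - 1) / 5) + 13 / 12 * a8)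
    (s4 : 97 / 20 - (a0 ^ 2 + a1 ^ 2 + a2 ^ 2 + a3 ^ 2) < 25 / 6 * (1 - (a0 + a1 + a2 + a3 - 1) / 4) + 13 / 12 * a4) :
    False := by
  have lb1 : 943/3250 ≤ a1 := by linarith only [b1, b0]
  have z9 : 0 ≤ a9 := o10
  have z8 : 0 ≤ a8 := z9.trans o9
  have z7 : 0 ≤ a7 := z8.trans o8
  have z6 : 0 ≤ a6 := z7.trans o7
  have z5 : 0 ≤ a5 := z6.trans o6
  have z4 : 0 ≤ a4 := z5.trans o5
  have z3 : 0 ≤ a3 := z4.trans o4
  have z2 : 0 ≤ a2 := z3.trans o3
  have w1 : a1 ≤ 1 := o1.trans o0
  have w2 : a2 ≤ 1 := o2.trans w1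
  have w3 : a3 ≤ 1 := o3.trans w2
  have w4 : a4 ≤ 1 := o4.trans w3
  have w5 : a5 ≤ 1 := o5.trans w4
  have w6 : a6 ≤ 1 := o6.trans w5
  have w7 : a7 ≤ 1 := o7.trans w6
  have w8 : a8 ≤ 1 := o8.trans w7
  have w9 : a9 ≤ 1 := o9.trans w8
  rcases le_total a4 (7/20) with h0 | h0
  · have u1 : a5 ≤ 7/20 := o5.trans h0
    have u2 : a6 ≤ 7/20 := o6.trans u1
    have u3 : a7 ≤ 7/20 := o7.trans u2
    have u4 : a8 ≤ 7/20 := o8.trans u3
    have u5 : a9 ≤ 7/20 := o9.trans u4
    rcases le_total a2 (13/20) with h1 | h1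
    · have u6 : a3 ≤ 13/20 := o3.trans h1
      rcases le_total a1 (9/20) with h2 | h2
      · have u7 : a2 ≤ 9/20 := o2.trans h2
        have u8 : a3 ≤ 9/20 := o3.trans u7
        linarith only [s3, sec b0 o0, sec lb1 h2, sec z2 u7, o1, o2, o3, b1, b0, h2, lb1, o0, u7, u8, z2, z3]
      · rcases le_total a2 (9/20) with h3 | h3
        · have u9 : a3 ≤ 9/20 := o3.trans h3
          linarith only [s3, sec b0 o0, sec h2 w1, sec z2 h3, o1, o2, o3, b1, b0, h2, h3, o0, u9, w1, z2, z3]
        · linarith only [s25, s3, s4, sec b0 o0, sec h2 w1, sec h3 h1, sec z3 u6, sec z4 h0, sec z5 u1, sec z6 u2, o1, o2, o3, o4, o5, o6, o7, b1, b0, h0, h1, h2, h3, o0, u1, u2, u3, u6, w1, z3, z4, z5, z6, z7]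
    · have l10 : 13/20 ≤ a1 := h1.trans o2
      have l11 : 13/20 ≤ a0 := l10.trans o1
      rcases le_total a3 (3/5) with h2 | h2
      · linarith only [s23, s3, sec l11 o0, sec l10 w1, sec h1 w2, sec z3 h2, sec z4 h0, o1, o2, o3, o4, o5, b1, h0, h1, h2, l10, l11, o0, u1, w1, w2, z3, z4, z5]
      · linarith only [s23, sec l11 o0, sec l10 w1, sec h1 w2, sec h2 w3, sec z4 h0, o1, o2, o3, o4, o5, b1, h0, h1, h2, l10, l11, o0, u1, w1, w2, w3, z4, z5]
  · have l12 : 7/20 ≤ a3 := h0.trans o4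
    have l13 : 7/20 ≤ a2 := l12.trans o3
    have l14 : 7/20 ≤ a1 := l13.trans o2
    rcases le_total a5 (1/2) with h1 | h1
    · have u15 : a6 ≤ 1/2 := o6.trans h1
      have u16 : a7 ≤ 1/2 := o7.trans u15
      have u17 : a8 ≤ 1/2 := o8.trans u16
      have u18 : a9 ≤ 1/2 := o9.trans u17
      rcases le_total a1 (13/20) with h2 | h2
      · have u19 : a2 ≤ 13/20 := o2.trans h2
        have u20 : a3 ≤ 13/20 := o3.trans u19
        have u21 : a4 ≤ 13/20 := o4.trans u20
        rcases le_total a9 (3/10) with h3 | h3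
        · rcases le_total a8 (2/5) with h4 | h4
          · rcases le_total a5 (2/5) with h5 | h5
            · have u22 : a6 ≤ 2/5 := o6.trans h5
              have u23 : a7 ≤ 2/5 := o7.trans u22
              linarith only [s23, s3, s35, sec b0 o0, sec l14 h2, sec l13 u19, sec l12 u20, sec h0 u21, sec z5 h5, sec z6 u22, sec z7 u23, o1, o2, o3, o4, o5, o6, o7, o8, b1, b0, h0, h2, h4, h5, l12, l13, l14, o0, u19, u20, u21, u22, u23, z5, z6, z7, z8]
            · have l24 : 2/5 ≤ a4 := h5.trans o5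
              have l25 : 2/5 ≤ a3 := l24.trans o4
              have l26 : 2/5 ≤ a2 := l25.trans o3
              have l27 : 2/5 ≤ a1 := l26.trans o2
              linarith only [s34, sec b0 o0, sec l27 h2, sec l26 u19, sec l25 u20, sec l24 u21, sec h5 h1, sec z6 u15, o1, o2, o3, o4, o5, o6, o7, b1, b0, h1, h2, h5, l24, l25, l26, l27, o0, u15, u16, u19, u20, u21, z6, z7]
          · have l28 : 2/5 ≤ a7 := h4.trans o8
            have l29 : 2/5 ≤ a6 := l28.trans o7
            have l30 : 2/5 ≤ a5 := l29.trans o6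
            have l31 : 2/5 ≤ a4 := l30.trans o5
            have l32 : 2/5 ≤ a3 := l31.trans o4
            have l33 : 2/5 ≤ a2 := l32.trans o3
            have l34 : 2/5 ≤ a1 := l33.trans o2
            linarith only [s34, sec b0 o0, sec l34 h2, sec l33 u19, sec l32 u20, sec l31 u21, sec l30 h1, sec l29 u15, o1, o2, o3, o4, o5, o6, o7, b1, b0, h1, h2, l28, l29, l30, l31, l32, l33, l34, o0, u15, u16, u19, u20, u21]
        · have l35 : 3/10 ≤ a8 := h3.trans o9
          have l36 : 3/10 ≤ a7 := l35.trans o8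
          have l37 : 3/10 ≤ a6 := l36.trans o7
          have l38 : 3/10 ≤ a5 := l37.trans o6
          rcases le_total a4 (1/2) with h4 | h4
          · rcases le_total a1 (9/20) with h5 | h5
            · have u39 : a2 ≤ 9/20 := o2.trans h5
              have u40 : a3 ≤ 9/20 := o3.trans u39
              have u41 : a4 ≤ 9/20 := o4.trans u40
              have u42 : a5 ≤ 9/20 := o5.trans u41
              have u43 : a6 ≤ 9/20 := o6.trans u42
              have u44 : a7 ≤ 9/20 := o7.trans u43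
              have u45 : a8 ≤ 9/20 := o8.trans u44
              have u46 : a9 ≤ 9/20 := o9.trans u45
              linarith only [s3, sec b0 o0, sec l14 h5, sec l13 u39, o1, o2, o3, b1, b0, h5, l12, l13, l14, o0, u39, u40]
            · linarith only [s34, sec b0 o0, sec h5 h2, sec l13 u19, sec l12 u20, sec h0 h4, sec l38 h1, sec l37 u15, o1, o2, o3, o4, o5, o6, o7, b1, b0, h0, h1, h2, h4, h5, l12, l13, l36, l37, l38, o0, u15, u16, u19, u20]
          · have l47 : 1/2 ≤ a3 := h4.trans o4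
            have l48 : 1/2 ≤ a2 := l47.trans o3
            have l49 : 1/2 ≤ a1 := l48.trans o2
            linarith only [s3, s33, sec b0 o0, sec l49 h2, sec l48 u19, sec l47 u20, sec h4 u21, sec l38 h1, o1, o2, o3, o4, o5, o6, b1, b0, h1, h2, h4, l37, l38, l47, l48, l49, o0, u15, u19, u20, u21]
      · have l50 : 13/20 ≤ a0 := h2.trans o1
        rcases le_total a3 (13/20) with h3 | h3
        · have u51 : a4 ≤ 13/20 := o4.trans h3
          rcases le_total a2 (3/4) with h4 | h4
          · linarith only [s2, s23, s34, sec l50 o0, sec h2 w1, sec l13 h4, sec l12 h3, sec h0 u51, sec z5 h1, sec z6 u15, o1, o2, o3, o4, o5, o6, o7, b1, h0, h1, h2, h3, h4, l12, l13, l50, o0, u15, u16, u51, w1, z5, z6, z7]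
          · have l52 : 3/4 ≤ a1 := h4.trans o2
            have l53 : 3/4 ≤ a0 := l52.trans o1
            linarith only [s23, s24, sec l53 o0, sec l52 w1, sec h4 w2, sec l12 h3, sec h0 u51, sec z5 h1, o1, o2, o3, o4, o5, o6, b1, h0, h1, h3, h4, l12, l52, l53, o0, u15, u51, w1, w2, z5, z6]
        · have l54 : 13/20 ≤ a2 := h3.trans o3
          rcases le_total a4 (11/20) with h4 | h4
          · rcases le_total a0 (4/5) with h5 | h5
            · have u55 : a1 ≤ 4/5 := o1.trans h5
              have u56 : a2 ≤ 4/5 := o2.trans u55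
              have u57 : a3 ≤ 4/5 := o3.trans u56
              linarith only [s33, sec l50 h5, sec h2 u55, sec l54 u56, sec h3 u57, sec h0 h4, sec z5 h1, o1, o2, o3, o4, o5, o6, b1, h0, h1, h2, h3, h4, h5, l50, l54, u15, u55, u56, u57, z5, z6]
            · linarith only [s23, sec h5 o0, sec h2 w1, sec l54 w2, sec h3 w3, sec h0 h4, o1, o2, o3, o4, o5, b1, h0, h1, h2, h3, h4, h5, l54, o0, w1, w2, w3, z5]
          · rcases le_total a4 (4/5) with h5 | h5
            · linarith only [s23, s33, sec l50 o0, sec h2 w1, sec l54 w2, sec h3 w3, sec h4 h5, sec z5 h1, o1, o2, o3, o4, o5, o6, b1, h1, h2, h3, h4, h5, l50, l54, o0, u15, w1, w2, w3, z5, z6]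
            · have l58 : 4/5 ≤ a3 := h5.trans o4
              have l59 : 4/5 ≤ a2 := l58.trans o3
              have l60 : 4/5 ≤ a1 := l59.trans o2
              have l61 : 4/5 ≤ a0 := l60.trans o1
              linarith only [s23, sec l61 o0, sec l60 w1, sec l59 w2, sec l58 w3, sec h5 w4, o1, o2, o3, o4, o5, b1, h1, h5, l58, l59, l60, l61, o0, w1, w2, w3, w4, z5]
    · have l62 : 1/2 ≤ a4 := h1.trans o5
      have l63 : 1/2 ≤ a3 := l62.trans o4
      have l64 : 1/2 ≤ a2 := l63.trans o3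
      have l65 : 1/2 ≤ a1 := l64.trans o2
      rcases le_total a6 (13/20) with h2 | h2
      · have u66 : a7 ≤ 13/20 := o7.trans h2
        have u67 : a8 ≤ 13/20 := o8.trans u66
        have u68 : a9 ≤ 13/20 := o9.trans u67
        rcases le_total a8 (1/4) with h3 | h3
        · have u69 : a9 ≤ 1/4 := o9.trans h3
          rcases le_total a7 (2/5) with h4 | h4
          · rcases le_total a1 (3/4) with h5 | h5
            · have u70 : a2 ≤ 3/4 := o2.trans h5
              have u71 : a3 ≤ 3/4 := o3.trans u70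
              have u72 : a4 ≤ 3/4 := o4.trans u71
              have u73 : a5 ≤ 3/4 := o5.trans u72
              linarith only [s224, s34, sec b0 o0, sec l65 h5, sec l64 u70, sec l63 u71, sec l62 u72, sec h1 u73, sec z6 h2, sec z7 h4, o1, o2, o3, o4, o5, o6, o7, o8, b1, b0, h1, h2, h3, h4, h5, l62, l63, l64, l65, o0, u70, u71, u72, u73, z6, z7, z8]
            · have l74 : 3/4 ≤ a0 := h5.trans o1
              rcases le_total a2 (3/4) with h6 | h6
              · have u75 : a3 ≤ 3/4 := o3.trans h6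
                have u76 : a4 ≤ 3/4 := o4.trans u75
                have u77 : a5 ≤ 3/4 := o5.trans u76
                linarith only [s233, s24, sec l74 o0, sec h5 w1, sec l64 h6, sec l63 u75, sec l62 u76, sec h1 u77, sec z6 h2, sec z7 h4, o1, o2, o3, o4, o5, o6, o7, o8, b1, h1, h2, h3, h4, h5, h6, l62, l63, l64, l74, o0, u75, u76, u77, w1, z6, z7, z8]
              · rcases le_total a6 (1/2) with h7 | h7
                · linarith only [s222, s223, s233, s33, sec l74 o0, sec h5 w1, sec h6 w2, sec l63 w3, sec l62 w4, sec h1 w5, sec z6 h7, sec z7 h4, o1, o2, o3, o4, o5, o6, o7, o8, b1, h1, h3, h4, h5, h6, h7, l62, l63, l74, o0, w1, w2, w3, w4, w5, z6, z7, z8]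
                · linarith only [s223, s233, sec l74 o0, sec h5 w1, sec h6 w2, sec l63 w3, sec l62 w4, sec h1 w5, sec h7 h2, sec z7 h4, o1, o2, o3, o4, o5, o6, o7, o8, b1, h1, h2, h3, h4, h5, h6, h7, l62, l63, l74, o0, w1, w2, w3, w4, w5, z7, z8]
          · have l78 : 2/5 ≤ a6 := h4.trans o7
            rcases le_total a1 (7/10) with h5 | h5
            · have u79 : a2 ≤ 7/10 := o2.trans h5
              have u80 : a3 ≤ 7/10 := o3.trans u79
              have u81 : a4 ≤ 7/10 := o4.trans u80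
              have u82 : a5 ≤ 7/10 := o5.trans u81
              linarith only [s233, s3, sec b0 o0, sec l65 h5, sec l64 u79, sec l63 u80, sec l62 u81, sec h1 u82, sec l78 h2, sec h4 u66, o1, o2, o3, o4, o5, o6, o7, o8, b1, b0, h1, h2, h3, h4, h5, l62, l63, l64, l65, l78, o0, u66, u79, u80, u81, u82, z8]
            · have l83 : 7/10 ≤ a0 := h5.trans o1
              linarith only [s233, s33, sec l83 o0, sec h5 w1, sec l64 w2, sec l63 w3, sec l62 w4, sec h1 w5, sec l78 h2, sec h4 u66, o1, o2, o3, o4, o5, o6, o7, o8, b1, h1, h2, h3, h4, h5, l62, l63, l64, l78, l83, o0, u66, w1, w2, w3, w4, w5, z8]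
        · have l84 : 1/4 ≤ a7 := h3.trans o8
          have l85 : 1/4 ≤ a6 := l84.trans o7
          rcases le_total a9 (7/20) with h4 | h4
          · rcases le_total a1 (7/10) with h5 | h5
            · have u86 : a2 ≤ 7/10 := o2.trans h5
              have u87 : a3 ≤ 7/10 := o3.trans u86
              have u88 : a4 ≤ 7/10 := o4.trans u87
              have u89 : a5 ≤ 7/10 := o5.trans u88
              linarith only [s234, s3, s34, sec b0 o0, sec l65 h5, sec l64 u86, sec l63 u87, sec l62 u88, sec h1 u89, sec l85 h2, sec l84 u66, sec h3 u67, o1, o2, o3, o4, o5, o6, o7, o8, o9, b1, b0, h1, h2, h3, h4, h5, l62, l63, l64, l65, l84, l85, o0, u66, u67, u86, u87, u88, u89, z9]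
            · have l90 : 7/10 ≤ a0 := h5.trans o1
              rcases le_total a2 (7/10) with h6 | h6
              · have u91 : a3 ≤ 7/10 := o3.trans h6
                have u92 : a4 ≤ 7/10 := o4.trans u91
                have u93 : a5 ≤ 7/10 := o5.trans u92
                linarith only [s234, s24, sec l90 o0, sec h5 w1, sec l64 h6, sec l63 u91, sec l62 u92, sec h1 u93, sec l85 h2, sec l84 u66, sec h3 u67, o1, o2, o3, o4, o5, o6, o7, o8, o9, b1, h1, h2, h3, h4, h5, h6, l62, l63, l64, l84, l85, l90, o0, u66, u67, u91, u92, u93, w1, z9]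
              · rcases le_total a3 (3/4) with h7 | h7
                · have u94 : a4 ≤ 3/4 := o4.trans h7
                  have u95 : a5 ≤ 3/4 := o5.trans u94
                  linarith only [s234, sec l90 o0, sec h5 w1, sec h6 w2, sec l63 h7, sec l62 u94, sec h1 u95, sec l85 h2, sec l84 u66, sec h3 u67, o1, o2, o3, o4, o5, o6, o7, o8, o9, b1, h1, h2, h3, h4, h5, h6, h7, l62, l63, l84, l85, l90, o0, u66, u67, u94, u95, w1, w2, z9]
                · have l96 : 3/4 ≤ a2 := h7.trans o3
                  have l97 : 3/4 ≤ a1 := l96.trans o2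
                  have l98 : 3/4 ≤ a0 := l97.trans o1
                  rcases le_total a4 (3/4) with h8 | h8
                  · have u99 : a5 ≤ 3/4 := o5.trans h8
                    linarith only [s234, sec l98 o0, sec l97 w1, sec l96 w2, sec h7 w3, sec l62 h8, sec h1 u99, sec l85 h2, sec l84 u66, sec h3 u67, o1, o2, o3, o4, o5, o6, o7, o8, o9, b1, h1, h2, h3, h4, h7, h8, l62, l84, l85, l96, l97, l98, o0, u66, u67, u99, w1, w2, w3, z9]
                  · linarith only [s222, p2223, s223, s233, s234, sec l98 o0, sec l97 w1, sec l96 w2, sec h7 w3, sec h8 w4, sec h1 w5, sec l85 h2, sec l84 u66, sec h3 u67, o1, o2, o3, o4, o5, o6, o7, o8, o9, b1, h1, h2, h3, h4, h7, h8, l84, l85, l96, l97, l98, o0, u66, u67, w1, w2, w3, w4, w5, z9]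
          · have l100 : 7/20 ≤ a8 := h4.trans o9
            have l101 : 7/20 ≤ a7 := l100.trans o8
            have l102 : 7/20 ≤ a6 := l101.trans o7
            rcases le_total a3 (13/20) with h5 | h5
            · have u103 : a4 ≤ 13/20 := o4.trans h5
              have u104 : a5 ≤ 13/20 := o5.trans u103
              rcases le_total a1 (13/20) with h6 | h6
              · have u105 : a2 ≤ 13/20 := o2.trans h6
                rcases le_total a9 (11/20) with h7 | h7
                · rcases le_total a8 (11/20) with h8 | h8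
                  · rcases le_total a6 (11/20) with h9 | h9
                    · have u106 : a7 ≤ 11/20 := o7.trans h9
                      linarith only [s34, sec b0 o0, sec l65 h6, sec l64 u105, sec l63 h5, sec l62 u103, sec h1 u104, sec l102 h9, o1, o2, o3, o4, o5, o6, o7, b1, b0, h1, h5, h6, h9, l101, l102, l62, l63, l64, l65, o0, u103, u104, u105, u106]
                    · have l107 : 11/20 ≤ a5 := h9.trans o6
                      have l108 : 11/20 ≤ a4 := l107.trans o5
                      have l109 : 11/20 ≤ a3 := l108.trans o4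
                      have l110 : 11/20 ≤ a2 := l109.trans o3
                      have l111 : 11/20 ≤ a1 := l110.trans o2
                      linarith only [s33, s333, sec b0 o0, sec l111 h6, sec l110 u105, sec l109 h5, sec l108 u103, sec l107 u104, sec h9 h2, sec l101 u66, sec l100 h8, o1, o2, o3, o4, o5, o6, o7, o8, o9, b1, b0, h2, h4, h5, h6, h7, h8, h9, l100, l101, l107, l108, l109, l110, l111, o0, u103, u104, u105, u66]
                  · have l112 : 11/20 ≤ a7 := h8.trans o8
                    have l113 : 11/20 ≤ a6 := l112.trans o7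
                    have l114 : 11/20 ≤ a5 := l113.trans o6
                    have l115 : 11/20 ≤ a4 := l114.trans o5
                    have l116 : 11/20 ≤ a3 := l115.trans o4
                    have l117 : 11/20 ≤ a2 := l116.trans o3
                    have l118 : 11/20 ≤ a1 := l117.trans o2
                    linarith only [s333, sec b0 o0, sec l118 h6, sec l117 u105, sec l116 h5, sec l115 u103, sec l114 u104, sec l113 h2, sec l112 u66, sec h8 u67, o1, o2, o3, o4, o5, o6, o7, o8, o9, b1, b0, h2, h4, h5, h6, h7, h8, l112, l113, l114, l115, l116, l117, l118, o0, u103, u104, u105, u66, u67]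
                · have l119 : 11/20 ≤ a8 := h7.trans o9
                  have l120 : 11/20 ≤ a7 := l119.trans o8
                  have l121 : 11/20 ≤ a6 := l120.trans o7
                  have l122 : 11/20 ≤ a5 := l121.trans o6
                  have l123 : 11/20 ≤ a4 := l122.trans o5
                  have l124 : 11/20 ≤ a3 := l123.trans o4
                  have l125 : 11/20 ≤ a2 := l124.trans o3
                  have l126 : 11/20 ≤ a1 := l125.trans o2
                  linarith only [s333, sec b0 o0, sec l126 h6, sec l125 u105, sec l124 h5, sec l123 u103, sec l122 u104, sec l121 h2, sec l120 u66, sec l119 u67, o1, o2, o3, o4, o5, o6, o7, o8, o9, b1, b0, h2, h5, h6, h7, l119, l120, l121, l122, l123, l124, l125, l126, o0, u103, u104, u105, u66, u67, u68]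
              · have l127 : 13/20 ≤ a0 := h6.trans o1
                rcases le_total a2 (3/4) with h7 | h7
                · rcases le_total a2 (3/5) with h8 | h8
                  · have u128 : a3 ≤ 3/5 := o3.trans h8
                    have u129 : a4 ≤ 3/5 := o4.trans u128
                    have u130 : a5 ≤ 3/5 := o5.trans u129
                    have u131 : a6 ≤ 3/5 := o6.trans u130
                    have u132 : a7 ≤ 3/5 := o7.trans u131
                    have u133 : a8 ≤ 3/5 := o8.trans u132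
                    have u134 : a9 ≤ 3/5 := o9.trans u133
                    linarith only [s233, s234, s3, sec l127 o0, sec h6 w1, sec l64 h8, sec l63 u128, sec l62 u129, sec h1 u130, sec l102 u131, sec l101 u132, sec l100 u133, o1, o2, o3, o4, o5, o6, o7, o8, o9, b1, h1, h4, h6, h8, l100, l101, l102, l127, l62, l63, l64, o0, u128, u129, u130, u131, u132, u133, u134, w1]
                  · rcases le_total a6 (3/5) with h9 | h9
                    · have u135 : a7 ≤ 3/5 := o7.trans h9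
                      have u136 : a8 ≤ 3/5 := o8.trans u135
                      have u137 : a9 ≤ 3/5 := o9.trans u136
                      linarith only [s233, s33, sec l127 o0, sec h6 w1, sec h8 h7, sec l63 h5, sec l62 u103, sec h1 u104, sec l102 h9, sec l101 u135, o1, o2, o3, o4, o5, o6, o7, o8, b1, h1, h5, h6, h7, h8, h9, l100, l101, l102, l127, l62, l63, o0, u103, u104, u135, u136, w1]
                    · have l138 : 3/5 ≤ a5 := h9.trans o6
                      have l139 : 3/5 ≤ a4 := l138.trans o5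
                      have l140 : 3/5 ≤ a3 := l139.trans o4
                      linarith only [s233, p234, s33, sec l127 o0, sec h6 w1, sec h8 h7, sec l140 h5, sec l139 u103, sec l138 u104, sec h9 h2, sec l101 u66, o1, o2, o3, o4, o5, o6, o7, o8, o9, b1, h2, h4, h5, h6, h7, h8, h9, l100, l101, l127, l138, l139, l140, o0, u103, u104, u66, u67, u68, w1]
                · have l141 : 3/4 ≤ a1 := h7.trans o2
                  have l142 : 3/4 ≤ a0 := l141.trans o1
                  linarith only [s23, s233, s33, sec l142 o0, sec l141 w1, sec h7 w2, sec l63 h5, sec l62 u103, sec h1 u104, sec l102 h2, sec l101 u66, o1, o2, o3, o4, o5, o6, o7, o8, b1, h1, h2, h5, h7, l100, l101, l102, l141, l142, l62, l63, o0, u103, u104, u66, u67, w1, w2]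
            · have l143 : 13/20 ≤ a2 := h5.trans o3
              have l144 : 13/20 ≤ a1 := l143.trans o2
              have l145 : 13/20 ≤ a0 := l144.trans o1
              rcases le_total a4 (11/20) with h6 | h6
              · have u146 : a5 ≤ 11/20 := o5.trans h6
                have u147 : a6 ≤ 11/20 := o6.trans u146
                have u148 : a7 ≤ 11/20 := o7.trans u147
                have u149 : a8 ≤ 11/20 := o8.trans u148
                have u150 : a9 ≤ 11/20 := o9.trans u149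
                rcases le_total a0 (4/5) with h7 | h7
                · have u151 : a1 ≤ 4/5 := o1.trans h7
                  have u152 : a2 ≤ 4/5 := o2.trans u151
                  have u153 : a3 ≤ 4/5 := o3.trans u152
                  linarith only [s33, sec l145 h7, sec l144 u151, sec l143 u152, sec h5 u153, sec l62 h6, sec h1 u146, o1, o2, o3, o4, o5, o6, b1, h1, h5, h6, h7, l102, l143, l144, l145, l62, u146, u147, u151, u152, u153]
                · linarith only [s234, sec h7 o0, sec l144 w1, sec l143 w2, sec h5 w3, sec l62 h6, sec h1 u146, sec l102 u147, sec l101 u148, sec l100 u149, o1, o2, o3, o4, o5, o6, o7, o8, o9, b1, h1, h4, h5, h6, h7, l100, l101, l102, l143, l144, l62, o0, u146, u147, u148, u149, u150, w1, w2, w3]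
              · rcases le_total a4 (3/4) with h7 | h7
                · have u154 : a5 ≤ 3/4 := o5.trans h7
                  rcases le_total a1 (4/5) with h8 | h8
                  · have u155 : a2 ≤ 4/5 := o2.trans h8
                    have u156 : a3 ≤ 4/5 := o3.trans u155
                    linarith only [s23, s233, s333, sec l145 o0, sec l144 h8, sec l143 u155, sec h5 u156, sec h6 h7, sec h1 u154, sec l102 h2, sec l101 u66, sec l100 u67, o1, o2, o3, o4, o5, o6, o7, o8, o9, b1, h1, h2, h4, h5, h6, h7, h8, l100, l101, l102, l143, l144, l145, o0, u154, u155, u156, u66, u67, u68]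
                  · have l157 : 4/5 ≤ a0 := h8.trans o1
                    linarith only [s233, p234, s33, sec l157 o0, sec h8 w1, sec l143 w2, sec h5 w3, sec h6 h7, sec h1 u154, sec l102 h2, sec l101 u66, o1, o2, o3, o4, o5, o6, o7, o8, o9, b1, h1, h2, h4, h5, h6, h7, h8, l100, l101, l102, l143, l157, o0, u154, u66, u67, u68, w1, w2, w3]
                · have l158 : 3/4 ≤ a3 := h7.trans o4
                  have l159 : 3/4 ≤ a2 := l158.trans o3
                  have l160 : 3/4 ≤ a1 := l159.trans o2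
                  have l161 : 3/4 ≤ a0 := l160.trans o1
                  linarith only [s233, p234, s33, sec l161 o0, sec l160 w1, sec l159 w2, sec l158 w3, sec h7 w4, sec h1 w5, sec l102 h2, sec l101 u66, o1, o2, o3, o4, o5, o6, o7, o8, o9, b1, h1, h2, h4, h7, l100, l101, l102, l158, l159, l160, l161, o0, u66, u67, u68, w1, w2, w3, w4, w5]
      · have l162 : 13/20 ≤ a5 := h2.trans o6
        have l163 : 13/20 ≤ a4 := l162.trans o5
        have l164 : 13/20 ≤ a3 := l163.trans o4
        have l165 : 13/20 ≤ a2 := l164.trans o3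
        have l166 : 13/20 ≤ a1 := l165.trans o2
        have l167 : 13/20 ≤ a0 := l166.trans o1
        rcases le_total a7 (11/20) with h3 | h3
        · have u168 : a8 ≤ 11/20 := o8.trans h3
          have u169 : a9 ≤ 11/20 := o9.trans u168
          rcases le_total a8 (2/5) with h4 | h4
          · have u170 : a9 ≤ 2/5 := o9.trans h4
            rcases le_total a7 (2/5) with h5 | h5
            · linarith only [s233, p234, sec l167 o0, sec l166 w1, sec l165 w2, sec l164 w3, sec l163 w4, sec l162 w5, sec h2 w6, sec z7 h5, o1, o2, o3, o4, o5, o6, o7, o8, o9, b1, h2, h4, h5, l162, l163, l164, l165, l166, l167, o0, u170, w1, w2, w3, w4, w5, w6, z7, z8, z9]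
            · linarith only [s233, p234, sec l167 o0, sec l166 w1, sec l165 w2, sec l164 w3, sec l163 w4, sec l162 w5, sec h2 w6, sec h5 h3, o1, o2, o3, o4, o5, o6, o7, o8, o9, b1, h2, h3, h4, h5, l162, l163, l164, l165, l166, l167, o0, u170, w1, w2, w3, w4, w5, w6, z8, z9]
          · have l171 : 2/5 ≤ a7 := h4.trans o8
            linarith only [p2223, s333, sec l167 o0, sec l166 w1, sec l165 w2, sec l164 w3, sec l163 w4, sec l162 w5, sec h2 w6, sec l171 h3, sec h4 u168, o1, o2, o3, o4, o5, o6, o7, o8, o9, b1, h2, h3, h4, l162, l163, l164, l165, l166, l167, l171, o0, u168, u169, w1, w2, w3, w4, w5, w6, z9]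
        · rcases le_total a8 (1/2) with h4 | h4
          · have u172 : a9 ≤ 1/2 := o9.trans h4
            linarith only [p2222, s333, sec l167 o0, sec l166 w1, sec l165 w2, sec l164 w3, sec l163 w4, sec l162 w5, sec h2 w6, sec h3 w7, sec z8 h4, o1, o2, o3, o4, o5, o6, o7, o8, o9, b1, h2, h3, h4, l162, l163, l164, l165, l166, l167, o0, u172, w1, w2, w3, w4, w5, w6, w7, z8, z9]
          · linarith only [s33, s333, p333, sec l167 o0, sec l166 w1, sec l165 w2, sec l164 w3, sec l163 w4, sec l162 w5, sec h2 w6, sec h3 w7, sec h4 w8, o1, o2, o3, o4, o5, o6, o7, o8, o9, b1, h2, h3, h4, l162, l163, l164, l165, l166, l167, o0, w1, w2, w3, w4, w5, w6, w7, w8, w9, z9]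

end Pool.Agent.H55.Homo
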