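import Pool.Agent.H55.Cov.Strip
import Pool.Agent.H55.Cov.Tree

/-!
# The unit square is covered as soon as `∑ x_i² ≥ 4.85`
-/

set_option autoImplicit false

namespace Pool.Agent.H55.Homo

open Finset

variable {x : ℕ → ℝ}

theorem Fail.step2 (hx : ∀ i, 0 ≤ x i) (hanti : Antitone x) {N s : ℕ} {b : ℝ}
    (h : Fail x N s b) (hs : s + 2 ≤ N) : Fail x N (s + 2) (b - (x s + x (s + 1) - 1) / 2) := by
  have := h.step hx hanti 2 (by norm_num) hs
  rw [sum_Ico_range] at this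
  simpa only [sum_range_succ, sum_range_zero, zero_add, add_zero, Nat.cast_ofNat] using this

theorem Fail.step3 (hx : ∀ i, 0 ≤ x i) (hanti : Antitone x) {N s : ℕ} {b : ℝ}
    (h : Fail x N s b) (hs : s + 3 ≤ N) :
    Fail x N (s + 3) (b - (x s + x (s + 1) + x (s + 2) - 1) / 3) := by
  have := h.step hx hanti 3 (by norm_num) hs
  rw [sum_Ico_range] at this
  simpa only [sum_range_succ, sum_range_zero, zero_add, add_zero, Nat.cast_ofNat] using this

theorem Fail.step4 (hx : ∀ i, 0 ≤ x i) (hanti : Antitone x) {N s : ℕ} {b : ℝ}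
    (h : Fail x N s b) (hs : s + 4 ≤ N) :
    Fail x N (s + 4) (b - (x s + x (s + 1) + x (s + 2) + x (s + 3) - 1) / 4) := by
  have := h.step hx hanti 4 (by norm_num) hs
  rw [sum_Ico_range] at this
  simpa only [sum_range_succ, sum_range_zero, zero_add, add_zero, Nat.cast_ofNat] using this

theorem Fail.step5 (hx : ∀ i, 0 ≤ x i) (hanti : Antitone x) {N s : ℕ} {b : ℝ}
    (h : Fail x N s b) (hs : s + 5 ≤ N) :
    Fail x N (s + 5) (b - (x s + x (s + 1) + x (s + 2) + x (s + 3) + x (s + 4) - 1) / 5) := by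
  have := h.step hx hanti 5 (by norm_num) hs
  rw [sum_Ico_range] at this
  simpa only [sum_range_succ, sum_range_zero, zero_add, add_zero, Nat.cast_ofNat] using this

theorem Fail.fact (hx : ∀ i, 0 ≤ x i) (hanti : Antitone x) {N : ℕ}
    (hN : ∀ i, N ≤ i → x i = 0) (hx1 : x 0 ≤ 1) (hsum : 97 / 20 ≤ ∑ i ∈ range N, x i ^ 2)
    {t : ℕ} (ht : t ≤ N) {b : ℝ} (h : Fail x N t b) :
    97 / 20 - ∑ i ∈ range t, x i ^ 2 < 25 / 6 * b + 13 / 12 * x t := by
  have h1 := h.sum_lt hx hanti hN hx1 ht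
  have h2 : ∑ i ∈ range t, x i ^ 2 + ∑ i ∈ Ico t N, x i ^ 2 = ∑ i ∈ range N, x i ^ 2 :=
    sum_range_add_sum_Ico _ ht
  linarith

/-- **Covering the unit square.** -/
theorem square (hx : ∀ i, 0 ≤ x i) (hanti : Antitone x) (N : ℕ) (hN10 : 10 ≤ N)
    (hN : ∀ i, N ≤ i → x i = 0) (hx1 : x 0 ≤ 1) (hsum : 97 / 20 ≤ ∑ i ∈ range N, x i ^ 2) :
    Cov x 0 N 1 1 := by
  by_contra hc
  have F0 : Fail x N 0 1 := ⟨one_pos, hc⟩
  have h0 := F0.fact hx hanti hN hx1 hsum (Nat.zero_le _)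
  rw [sum_range_zero, sub_zero] at h0
  have b0 : 41 / 65 ≤ x 0 := by linarith
  have b1 : 23 / 50 * x 0 ≤ x 1 := by
    by_contra hlt
    push Not at hlt
    refine hc (corner hx hanti (by omega) hx1 (by linarith) (by linarith) ?_)
    rw [Nat.Ico_zero_eq_range]
    refine le_trans ?_ hsum
    have h1 := hx 1
    nlinarith [mul_nonneg (sub_nonneg.2 hx1) (by linarith : (0 : ℝ) ≤ x 0)]
  have F2 : Fail x N 2 (1 - (x 0 + x 1 - 1) / 2) := F0.step2 hx hanti (by omega)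
  have F3 : Fail x N 3 (1 - (x 0 + x 1 + x 2 - 1) / 3) := F0.step3 hx hanti (by omega)
  have F4 : Fail x N 4 (1 - (x 0 + x 1 + x 2 + x 3 - 1) / 4) := F0.step4 hx hanti (by omega)
  have F22 : Fail x N 4 (1 - (x 0 + x 1 - 1) / 2 - (x 2 + x 3 - 1) / 2) :=
    F2.step2 hx hanti (by omega)
  have F23 : Fail x N 5 (1 - (x 0 + x 1 - 1) / 2 - (x 2 + x 3 + x 4 - 1) / 3) :=
    F2.step3 hx hanti (by omega)
  have F24 : Fail x N 6 (1 - (x 0 + x 1 - 1) / 2 - (x 2 + x 3 + x 4 + x 5 - 1) / 4) :=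
    F2.step4 hx hanti (by omega)
  have F25 : Fail x N 7 (1 - (x 0 + x 1 - 1) / 2 - (x 2 + x 3 + x 4 + x 5 + x 6 - 1) / 5) :=
    F2.step5 hx hanti (by omega)
  have F33 : Fail x N 6 (1 - (x 0 + x 1 + x 2 - 1) / 3 - (x 3 + x 4 + x 5 - 1) / 3) :=
    F3.step3 hx hanti (by omega)
  have F34 : Fail x N 7 (1 - (x 0 + x 1 + x 2 - 1) / 3 - (x 3 + x 4 + x 5 + x 6 - 1) / 4) :=
    F3.step4 hx hanti (by omega)
  have F35 : Fail x N 8 (1 - (x 0 + x 1 + x 2 - 1) / 3 - (x 3 + x 4 + x 5 + x 6 + x 7 - 1) / 5) :=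
    F3.step5 hx hanti (by omega)
  have F222 : Fail x N 6
      (1 - (x 0 + x 1 - 1) / 2 - (x 2 + x 3 - 1) / 2 - (x 4 + x 5 - 1) / 2) :=
    F22.step2 hx hanti (by omega)
  have F223 : Fail x N 7
      (1 - (x 0 + x 1 - 1) / 2 - (x 2 + x 3 - 1) / 2 - (x 4 + x 5 + x 6 - 1) / 3) :=
    F22.step3 hx hanti (by omega)
  have F224 : Fail x N 8
      (1 - (x 0 + x 1 - 1) / 2 - (x 2 + x 3 - 1) / 2 - (x 4 + x 5 + x 6 + x 7 - 1) / 4) :=
    F22.step4 hx hanti (by omega)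
  have F233 : Fail x N 8
      (1 - (x 0 + x 1 - 1) / 2 - (x 2 + x 3 + x 4 - 1) / 3 - (x 5 + x 6 + x 7 - 1) / 3) :=
    F23.step3 hx hanti (by omega)
  have F234 : Fail x N 9
      (1 - (x 0 + x 1 - 1) / 2 - (x 2 + x 3 + x 4 - 1) / 3 - (x 5 + x 6 + x 7 + x 8 - 1) / 4) :=
    F23.step4 hx hanti (by omega)
  have F333 : Fail x N 9
      (1 - (x 0 + x 1 + x 2 - 1) / 3 - (x 3 + x 4 + x 5 - 1) / 3 - (x 6 + x 7 + x 8 - 1) / 3) :=
    F33.step3 hx hanti (by omega)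
  have F2222 : Fail x N 8 (1 - (x 0 + x 1 - 1) / 2 - (x 2 + x 3 - 1) / 2 -
      (x 4 + x 5 - 1) / 2 - (x 6 + x 7 - 1) / 2) :=
    F222.step2 hx hanti (by omega)
  have F2223 : Fail x N 9 (1 - (x 0 + x 1 - 1) / 2 - (x 2 + x 3 - 1) / 2 -
      (x 4 + x 5 - 1) / 2 - (x 6 + x 7 + x 8 - 1) / 3) :=
    F222.step3 hx hanti (by omega)
  have s2 := F2.fact hx hanti hN hx1 hsum (by omega)
  have s3 := F3.fact hx hanti hN hx1 hsum (by omega)
  have s4 := F4.fact hx hanti hN hx1 hsum (by omega)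
  have s23 := F23.fact hx hanti hN hx1 hsum (by omega)
  have s24 := F24.fact hx hanti hN hx1 hsum (by omega)
  have s25 := F25.fact hx hanti hN hx1 hsum (by omega)
  have s33 := F33.fact hx hanti hN hx1 hsum (by omega)
  have s34 := F34.fact hx hanti hN hx1 hsum (by omega)
  have s35 := F35.fact hx hanti hN hx1 hsum (by omega)
  have s222 := F222.fact hx hanti hN hx1 hsum (by omega)
  have s223 := F223.fact hx hanti hN hx1 hsum (by omega)
  have s224 := F224.fact hx hanti hN hx1 hsum (by omega)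
  have s233 := F233.fact hx hanti hN hx1 hsum (by omega)
  have s234 := F234.fact hx hanti hN hx1 hsum (by omega)
  have s333 := F333.fact hx hanti hN hx1 hsum (by omega)
  simp only [sum_range_succ, sum_range_zero, zero_add] at s2 s3 s4 s23 s24 s25 s33 s34 s35
  simp only [sum_range_succ, sum_range_zero, zero_add] at s222 s223 s224 s233 s234 s333
  exact tree (x 0) (x 1) (x 2) (x 3) (x 4) (x 5) (x 6) (x 7) (x 8) (x 9) hx1
    (hanti (by norm_num)) (hanti (by norm_num)) (hanti (by norm_num)) (hanti (by norm_num))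
    (hanti (by norm_num)) (hanti (by norm_num)) (hanti (by norm_num)) (hanti (by norm_num))
    (hanti (by norm_num)) (hx 9) b0 b1
    (s2 := s2) (s222 := s222) (p2222 := F2222.1) (p2223 := F2223.1) (s223 := s223) (s224 := s224)
    (s23 := s23) (s233 := s233) (s234 := s234) (p234 := F234.1) (s24 := s24) (s25 := s25)
    (s3 := s3) (s33 := s33) (s333 := s333) (p333 := F333.1) (s34 := s34) (s35 := s35) (s4 := s4)

end Pool.Agent.H55.Homo
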