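import Pool.Agent.H55.Cov.Core

/-!
# The strip lemma, boxes, one step, the corner
-/

set_option autoImplicit false

namespace Pool.Agent.H55.Homo

open Finset

variable {x : ℕ → ℝ}

theorem sum_Ico_range (f : ℕ → ℝ) (s m : ℕ) :
    ∑ i ∈ Ico s (s + m), f i = ∑ i ∈ range m, f (s + i) := by
  rw [sum_Ico_eq_sum_range, Nat.add_sub_cancel_left]

theorem strip_aux (hx : ∀ i, 0 ≤ x i) (hanti : Antitone x) (N : ℕ) (hN : ∀ i, N ≤ i → x i = 0) :
    ∀ n s : ℕ, s ≤ N → N - s ≤ n → ∀ b : ℝ, 0 < b → x s ≤ 1 →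
      25 / 6 * b + 13 / 12 * x s ≤ ∑ i ∈ Ico s N, x i ^ 2 → Cov x s N 1 b := by
  intro n
  induction n with
  | zero =>
    intro s hs hn b hb _ hsum
    have : s = N := by omega
    subst this
    rw [Ico_self, sum_empty] at hsum
    have := hx s
    linarith
  | succ n ih =>
    intro s hs hn b hb hx1 hsum
    by_cases hx0 : x s = 0
    · have : ∑ i ∈ Ico s N, x i ^ 2 = 0 := by
        refine sum_eq_zero fun i hi => ?_
        rw [mem_Ico] at hi
        have h1 : x i ≤ x s := hanti hi.1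
        have h2 : x i = 0 := le_antisymm (by linarith) (hx i)
        rw [h2]; norm_num
      rw [this, hx0] at hsum
      linarith
    have hxs : 0 < x s := lt_of_le_of_ne (hx s) (Ne.symm hx0)
    obtain ⟨m, hm1, hmn, hm⟩ := core (y := fun i => x (s + i))
      (fun i j hij => hanti (by omega)) (fun i => hx _) (by simpa using hx1) (by simpa using hxs)
      (N - s) (fun i hi => hN _ (by omega))
    simp only [Nat.add_zero] at hm
    have e1 := sum_Ico_range (fun i => x i ^ 2) s m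
    have e2 := sum_Ico_range x s m
    rw [← e1, ← e2] at hm
    set A := ∑ i ∈ Ico s (s + m), x i with hA
    have hsplit : ∑ i ∈ Ico s N, x i ^ 2 =
        ∑ i ∈ Ico s (s + m), x i ^ 2 + ∑ i ∈ Ico (s + m) N, x i ^ 2 :=
      (sum_Ico_consecutive _ (by omega) (by omega)).symm
    have hmR : (0 : ℝ) < (m : ℝ) := by exact_mod_cast hm1
    by_cases hA1 : 1 ≤ A
    · have hh : 0 ≤ (A - 1) / (m : ℝ) := div_nonneg (by linarith) hmR.le
      rw [max_eq_right hh] at hm
      have hlay := layer hx hanti s m hm1 hA1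
      by_cases hb2 : b ≤ (A - 1) / (m : ℝ)
      · exact hlay.mono hx le_rfl (by omega) le_rfl hb2
      · push Not at hb2
        have hrest := ih (s + m) (by omega) (by omega) (b - (A - 1) / (m : ℝ)) (by linarith)
          ((hanti (by omega)).trans hx1) (by linarith)
        have := hlay.stack hrest (by omega) (by omega)
        rw [add_sub_cancel] at this
        exact this
    · push Not at hA1
      have hh : (A - 1) / (m : ℝ) ≤ 0 := div_nonpos_of_nonpos_of_nonneg (by linarith) hmR.le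
      rw [max_eq_left hh] at hm
      have hrest := ih (s + m) (by omega) (by omega) b hb ((hanti (by omega)).trans hx1)
        (by linarith)
      exact hrest.mono hx (by omega) le_rfl le_rfl le_rfl

/-- **Strip lemma.** -/
theorem strip (hx : ∀ i, 0 ≤ x i) (hanti : Antitone x) (N : ℕ) (hN : ∀ i, N ≤ i → x i = 0)
    (s : ℕ) (hs : s ≤ N) (b : ℝ) (hb : 0 < b) (hx1 : x s ≤ 1)
    (hsum : 25 / 6 * b + 13 / 12 * x s ≤ ∑ i ∈ Ico s N, x i ^ 2) : Cov x s N 1 b :=
  strip_aux hx hanti N hN (N - s) s hs le_rfl b hb hx1 hsum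

/-- the same for boxes -/
theorem box (hx : ∀ i, 0 ≤ x i) (hanti : Antitone x) (N : ℕ)
    (s : ℕ) (hs : s ≤ N) (a b : ℝ) (ha : 0 < a) (hb : 0 < b) (hx1 : x s ≤ a)
    (hsum : 25 / 6 * (a * b) + 13 / 12 * (a * x s) ≤ ∑ i ∈ Ico s N, x i ^ 2) : Cov x s N a b := by
  classical
  set y : ℕ → ℝ := fun i => if i < N then x i / a else 0 with hy
  have hy0 : ∀ i, 0 ≤ y i := by
    intro i; simp only [hy]
    have := hx i
    split_ifs <;> positivity
  have hyanti : Antitone y := by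
    intro i j hij
    simp only [hy]
    by_cases hj : j < N
    · rw [if_pos hj, if_pos (by omega)]
      exact div_le_div_of_nonneg_right (hanti hij) ha.le
    · rw [if_neg hj]
      exact hy0 i
  by_cases hsN : s = N
  · subst hsN
    rw [Ico_self, sum_empty] at hsum
    have h1 : 0 < a * b := by positivity
    have h2 : 0 ≤ a * x s := by have := hx s; positivity
    linarith
  have hsN' : s < N := by omega
  have hys : y s = x s / a := by simp only [hy]; rw [if_pos hsN']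
  have hsum2 : ∑ i ∈ Ico s N, y i ^ 2 = (∑ i ∈ Ico s N, x i ^ 2) / a ^ 2 := by
    rw [sum_div]
    refine sum_congr rfl fun i hi => ?_
    rw [mem_Ico] at hi
    simp only [hy]
    rw [if_pos hi.2, div_pow]
  have h1 := strip hy0 hyanti N (fun i hi => by simp only [hy]; rw [if_neg (by omega)]) s hs (b / a)
    (by positivity) (by rw [hys, div_le_one ha]; exact hx1) (by
      rw [hsum2, hys, le_div_iff₀ (by positivity)]
      have e : (25 / 6 * (b / a) + 13 / 12 * (x s / a)) * a ^ 2 =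
          25 / 6 * (a * b) + 13 / 12 * (a * x s) := by field_simp
      rw [e]
      exact hsum)
  have h2 := h1.scale ha
  rw [mul_one, mul_div_cancel₀ _ ha.ne'] at h2
  refine h2.congr fun i hi hi' => ?_
  simp only [hy]
  rw [if_pos hi', mul_div_cancel₀ _ ha.ne']

/-- The part of the strip of height `b > 0` cannot be covered by the bodies from `s` on. -/
def Fail (x : ℕ → ℝ) (N s : ℕ) (b : ℝ) : Prop := 0 < b ∧ ¬ Cov x s N 1 b

theorem Fail.sum_lt (hx : ∀ i, 0 ≤ x i) (hanti : Antitone x) {N : ℕ}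
    (hN : ∀ i, N ≤ i → x i = 0) (hx1 : x 0 ≤ 1) {s : ℕ} (hs : s ≤ N) {b : ℝ} (h : Fail x N s b) :
    ∑ i ∈ Ico s N, x i ^ 2 < 25 / 6 * b + 13 / 12 * x s := by
  by_contra hlt
  push Not at hlt
  exact h.2 (strip hx hanti N hN s hs b h.1 ((hanti (Nat.zero_le _)).trans hx1) hlt)

theorem Fail.step (hx : ∀ i, 0 ≤ x i) (hanti : Antitone x) {N : ℕ} {s : ℕ} {b : ℝ}
    (h : Fail x N s b) (m : ℕ) (hm : 1 ≤ m) (hsm : s + m ≤ N) :
    Fail x N (s + m) (b - (∑ i ∈ Ico s (s + m), x i - 1) / m) := by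
  have hmR : (0 : ℝ) < (m : ℝ) := by exact_mod_cast hm
  set A := ∑ i ∈ Ico s (s + m), x i with hA
  by_cases hA1 : 1 ≤ A
  · have hlay := layer hx hanti s m hm hA1
    have hpos : 0 < b - (A - 1) / m := by
      by_contra hlt
      push Not at hlt
      exact h.2 (hlay.mono hx le_rfl hsm le_rfl (by linarith))
    refine ⟨hpos, fun hc => h.2 ?_⟩
    have := hlay.stack hc (by omega) hsm
    rw [add_sub_cancel] at this
    exact this
  · push Not at hA1
    have hh : (A - 1) / (m : ℝ) ≤ 0 := div_nonpos_of_nonpos_of_nonneg (by linarith) hmR.le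
    refine ⟨by linarith [h.1], fun hc => h.2 ?_⟩
    exact hc.mono hx (by omega) le_rfl le_rfl (by linarith)

/-- **Corner.** If the second body is at most half as large as the first one. -/
theorem corner (hx : ∀ i, 0 ≤ x i) (hanti : Antitone x) {N : ℕ} (hN1 : 1 ≤ N)
    (hx1 : x 0 ≤ 1) (h0 : 0 < x 0) (h : x 1 ≤ x 0 / 2)
    (hsum : x 0 ^ 2 + x 1 ^ 2 + 25 / 6 * (1 - x 0 ^ 2 / 4) + 13 / 12 * x 1 ≤
      ∑ i ∈ Ico 0 N, x i ^ 2) : Cov x 0 N 1 1 := by
  classical
  set R1 : ℝ := 25 / 6 * (x 0 / 2 * (1 - x 0 / 2)) + 13 / 12 * (x 0 / 2 * x 1) with hR1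
  have hx11 : 0 ≤ x 1 := hx 1
  have hsplit : ∑ i ∈ Ico 0 N, x i ^ 2 = x 0 ^ 2 + ∑ i ∈ Ico 1 N, x i ^ 2 := by
    rw [sum_eq_sum_Ico_succ_bot (by omega)]
  have hR : R1 ≤ ∑ i ∈ Ico 1 N, x i ^ 2 := by
    rw [hR1]
    nlinarith [sq_nonneg (x 1)]
  have hex : ∃ m, 1 ≤ m ∧ R1 ≤ ∑ i ∈ Ico 1 m, x i ^ 2 := ⟨N, hN1, hR⟩
  set m := Nat.find hex with hm
  obtain ⟨hm1, hmR⟩ : 1 ≤ m ∧ R1 ≤ ∑ i ∈ Ico 1 m, x i ^ 2 := Nat.find_spec hex
  have hmN : m ≤ N := Nat.find_min' hex ⟨hN1, hR⟩
  have hR1pos : 0 < R1 := by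
    rw [hR1]
    have h1 : 0 < x 0 / 2 * (1 - x 0 / 2) := by
      apply mul_pos <;> linarith
    have h2 : 0 ≤ x 0 / 2 * x 1 := by positivity
    linarith
  have hm2 : 2 ≤ m := by
    by_contra hlt
    have : m = 1 := by omega
    rw [this, Ico_self, sum_empty] at hmR
    linarith
  have hlt : ∑ i ∈ Ico 1 (m - 1), x i ^ 2 < R1 := by
    by_contra hge
    push Not at hge
    exact Nat.find_min hex (m := m - 1) (by omega) ⟨by omega, hge⟩
  have hlast : ∑ i ∈ Ico 1 m, x i ^ 2 ≤ R1 + x 1 ^ 2 := by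
    obtain ⟨r, hr⟩ : ∃ r, m = r + 1 := ⟨m - 1, by omega⟩
    rw [hr, Nat.add_sub_cancel] at hlt
    rw [hr, sum_Ico_succ_top (by omega)]
    have h1 : x r ≤ x 1 := hanti (by omega)
    have h2 : x r ^ 2 ≤ x 1 ^ 2 := by nlinarith [hx r]
    linarith
  have hrest : ∑ i ∈ Ico 1 N, x i ^ 2 = ∑ i ∈ Ico 1 m, x i ^ 2 + ∑ i ∈ Ico m N, x i ^ 2 :=
    (sum_Ico_consecutive _ (by omega) (by omega)).symm
  -- the three pieces
  have c0 : Cov x 0 1 (x 0 / 2) (x 0 / 2) := by
    refine ⟨fun _ => x 0 / 2, fun _ => x 0 / 2, fun _ => 0, fun _ => 0, fun i _ hi => ?_, ?_⟩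
    · have : i = 0 := by omega
      subst this
      refine ⟨by linarith, by linarith, by linarith⟩
    · intro u v hu hu' hv hv'
      exact ⟨0, le_rfl, by omega, h0, hu, by simpa using hu', hv, by simpa using hv'⟩
  have c1 : Cov x 1 m (1 - x 0 / 2) (x 0 / 2) := by
    refine (box hx hanti m 1 (by omega) (x 0 / 2) (1 - x 0 / 2) (by linarith) (by linarith) h ?_).swap
    rw [← hR1]
    exact hmR
  have c2 : Cov x m N 1 (1 - x 0 / 2) := by
    refine (box hx hanti N m hmN (1 - x 0 / 2) 1 (by linarith) one_pos ?_ ?_).swap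
    · have : x m ≤ x 1 := hanti (by omega)
      linarith
    · have h1 : x m ≤ x 1 := hanti (by omega)
      have h2 : (1 - x 0 / 2) * x m ≤ (1 - x 0 / 2) * x 1 :=
        mul_le_mul_of_nonneg_left h1 (by linarith)
      rw [hR1] at hlast
      nlinarith
  have c3 := c0.side c1 (by omega) hm1
  rw [add_sub_cancel] at c3
  have c4 := c3.stack c2 (by omega) hmN
  rw [add_sub_cancel] at c4
  exact c4

end Pool.Agent.H55.Homo
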